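import Pool.Agent.TH575.OM.Eqd3
import Pool.Agent.TH575.OM.Eqd4

/-!
Means of functions of the state `σ n` of `n` and of a residue class, where `σ (p m) = U (σ m)` at the
small primes (a version of `Pool.Agent.TH575.OM.Eqd`, there `σ = Ω`).
-/

set_option autoImplicit false

namespace Pool.Agent.J4.H12.ST

open Finset Filter Topology ArithmeticFunction Pool.Agent.H970R2.X
open Pool.Agent.TH575.OM (tk_fam exp_sub_le PB PB_mem PB_disj PB_low harm_big shift_many)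

/-- `σ (p m) = U (σ m)` for the primes `p ≤ W` -/
def Sta {S : Type} (σ : ℕ → S) (U : S → S) (W : ℕ) : Prop :=
  ∀ p : ℕ, p.Prime → p ≤ W → ∀ m : ℕ, 0 < m → σ (p * m) = U (σ m)

lemma Sta.mono {S : Type} {σ : ℕ → S} {U : S → S} {W W' : ℕ} (h : Sta σ U W) (hW : W' ≤ W) :
    Sta σ U W' := fun p hp h1 => h p hp (h1.trans hW)

/-- the sum of a function of the number of prime factors and of the residue class -/
noncomputable def SP {S : Type} (σ : ℕ → S) (q : ℕ) (φ : S → ZMod q → ℝ) (N : ℕ) : ℝ :=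
  ∑ n ∈ Icc 1 N, φ (σ n) (n : ZMod q)

/-- its mean -/
noncomputable def ME {S : Type} (σ : ℕ → S) (q : ℕ) (φ : S → ZMod q → ℝ) (x : ℝ) : ℝ := SP σ q φ ⌊x⌋₊ / x

/-- bounded by one -/
def B1 {S : Type} {q : ℕ} (φ : S → ZMod q → ℝ) : Prop := ∀ l b, |φ l b| ≤ 1

/-- the action of a prime in the class `r` -/
def act {S : Type} (U : S → S) {q : ℕ} (r : (ZMod q)ˣ) (φ : S → ZMod q → ℝ) : S → ZMod q → ℝ :=
  fun l b => φ (U l) (r * b)

/-- the action on the residue class only -/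
def uact {S : Type} {q : ℕ} (r : (ZMod q)ˣ) (φ : S → ZMod q → ℝ) : S → ZMod q → ℝ := fun l b => φ l (r * b)

/-- the shift -/
def up {S : Type} (U : S → S) {q : ℕ} (φ : S → ZMod q → ℝ) : S → ZMod q → ℝ := fun l b => φ (U l) b

lemma act_B1 {S : Type} {U : S → S} {q : ℕ} {r : (ZMod q)ˣ} {φ : S → ZMod q → ℝ} (h : B1 φ) : B1 (act U r φ) := fun _ _ => h _ _
lemma uact_B1 {S : Type} {q : ℕ} {r : (ZMod q)ˣ} {φ : S → ZMod q → ℝ} (h : B1 φ) : B1 (uact r φ) := fun _ _ => h _ _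
lemma up_B1 {S : Type} {U : S → S} {q : ℕ} {φ : S → ZMod q → ℝ} (h : B1 φ) : B1 (up U φ) := fun _ _ => h _ _

lemma SP_abs {S : Type} {σ : ℕ → S} {q : ℕ} {φ : S → ZMod q → ℝ} (h : B1 φ) (N : ℕ) : |SP σ q φ N| ≤ N := by
  unfold SP
  refine (abs_sum_le_sum_abs _ _).trans ?_
  refine (sum_le_sum fun n _ => h _ _).trans ?_
  simp

lemma SP_lip {S : Type} {σ : ℕ → S} {q : ℕ} {φ : S → ZMod q → ℝ} (h : B1 φ) {M N : ℕ} (hMN : N ≤ M) :
    |SP σ q φ M - SP σ q φ N| ≤ M - N := by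
  unfold SP
  have e : ∑ n ∈ Icc 1 M, φ (σ n) (n : ZMod q) - ∑ n ∈ Icc 1 N, φ (σ n) (n : ZMod q) =
      ∑ n ∈ Ioc N M, φ (σ n) (n : ZMod q) := by
    have h1 : Icc 1 M = Ioc 0 M := rfl
    have h2 : Icc 1 N = Ioc 0 N := rfl
    rw [h1, h2, ← sum_Ioc_consecutive _ (Nat.zero_le N) hMN]
    ring
  rw [e]
  refine (abs_sum_le_sum_abs _ _).trans ?_
  refine (sum_le_sum fun n _ => h _ _).trans ?_
  simp only [sum_const, Nat.card_Ioc, nsmul_eq_mul, mul_one]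
  rw [Nat.cast_sub hMN]

lemma ME_abs {S : Type} {σ : ℕ → S} {q : ℕ} {φ : S → ZMod q → ℝ} (h : B1 φ) {x : ℝ} (hx : 0 < x) : |ME σ q φ x| ≤ 1 := by
  unfold ME
  rw [abs_div, abs_of_pos hx, div_le_one hx]
  exact (SP_abs h _).trans (Nat.floor_le hx.le)

lemma ME_lip {S : Type} {σ : ℕ → S} {q : ℕ} {φ : S → ZMod q → ℝ} (h : B1 φ) {y z : ℝ} (hy : 0 < y) (hyz : y ≤ z) :
    |SP σ q φ ⌊y⌋₊ - y * ME σ q φ z| ≤ 2 * (z - y) + 1 := by
  have hz : 0 < z := hy.trans_le hyz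
  have e1 : |SP σ q φ ⌊z⌋₊ - SP σ q φ ⌊y⌋₊| ≤ z - y + 1 := by
    refine (SP_lip h (Nat.floor_le_floor hyz)).trans ?_
    have := Nat.floor_le hz.le
    have := Nat.lt_floor_add_one y
    linarith
  have e2 : |SP σ q φ ⌊z⌋₊ - y * ME σ q φ z| ≤ z - y := by
    unfold ME
    have e3 : SP σ q φ ⌊z⌋₊ - y * (SP σ q φ ⌊z⌋₊ / z) = SP σ q φ ⌊z⌋₊ * ((z - y) / z) := by
      field_simp
    rw [e3, abs_mul, abs_of_nonneg (div_nonneg (by linarith) hz.le : 0 ≤ (z - y) / z)]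
    have e4 := (SP_abs (σ := σ) h ⌊z⌋₊).trans (Nat.floor_le hz.le)
    calc |SP σ q φ ⌊z⌋₊| * ((z - y) / z) ≤ z * ((z - y) / z) :=
          mul_le_mul_of_nonneg_right e4 (div_nonneg (by linarith) hz.le)
      _ = z - y := by field_simp
  have e5 : SP σ q φ ⌊y⌋₊ - y * ME σ q φ z =
      -(SP σ q φ ⌊z⌋₊ - SP σ q φ ⌊y⌋₊) + (SP σ q φ ⌊z⌋₊ - y * ME σ q φ z) := by ring
  rw [e5]
  refine (abs_add_le _ _).trans ?_
  rw [abs_neg]
  linarith

lemma SP_cmp {S : Type} {σ : ℕ → S} {q : ℕ} {φ : S → ZMod q → ℝ} (h : B1 φ) {H : ℕ} (hH : 1 ≤ H) {y z : ℝ} (hy : 0 < y) (hyz : y ≤ z)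
    (hz : z ≤ y * Real.exp (1 / (H : ℝ))) :
    |SP σ q φ ⌊y⌋₊ - y * ME σ q φ z| ≤ 4 * y / H + 1 := by
  refine (ME_lip h hy hyz).trans ?_
  have e := mul_le_mul_of_nonneg_left (exp_sub_le hH) hy.le
  have e2 : 4 * y / (H : ℝ) = 2 * (y * (2 / H)) := by ring
  rw [e2]
  linarith

lemma SP_mul {S : Type} {σ : ℕ → S} {U : S → S} {W : ℕ} (hσ : Sta σ U W) {q : ℕ} (φ : S → ZMod q → ℝ) (p : ℕ) (hp : p.Prime)
    (hpW : p ≤ W) (r : (ZMod q)ˣ) (hr : (p : ZMod q) = r) (N : ℕ) :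
    ∑ m ∈ Icc 1 N, φ (σ (p * m)) ((p * m : ℕ) : ZMod q) = SP σ q (act U r φ) N := by
  unfold SP act
  apply sum_congr rfl
  intro m hm
  rw [mem_Icc] at hm
  rw [hσ p hp hpW m (by omega), Nat.cast_mul, hr]

/-- the averaging identity -/
theorem claimA (q : ℕ) [NeZero q] (H : ℕ) (hH : 1 ≤ H) (K : ℝ) {ε : ℝ} (hε : 0 < ε) :
    ∃ v₀ V : ℕ, 1 ≤ v₀ ∧ v₀ ≤ V ∧ K ≤ ∑ v ∈ Ico v₀ V, 1 / (v : ℝ) ∧ ∃ (x₀ : ℝ) (W : ℕ), ∀ (S : Type) (σ : ℕ → S) (U : S → S), Sta σ U W → ∀ x ≥ x₀,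
      ∀ φ : S → ZMod q → ℝ, B1 φ →
      |ME σ q φ x - 1 / ((Fintype.card (ZMod q)ˣ : ℝ) * ∑ v ∈ Ico v₀ V, 1 / (v : ℝ)) *
        ∑ v ∈ Ico v₀ V, 1 / (v : ℝ) * ∑ r : (ZMod q)ˣ, ME σ q (act U r φ) (x * Real.exp (-((v : ℝ) / H)))| ≤
      ε + 4 / H := by
  classical
  have hH0 : (0 : ℝ) < H := by exact_mod_cast hH
  obtain ⟨c, hc, v₀, hv₀, hlow⟩ := PB_low q H hH
  set C : ℝ := 1 / c with hC
  have hC0 : 0 < C := by positivity
  obtain ⟨V, hV1, hV2⟩ := harm_big v₀ (max (max K 1) (8 * C / ε ^ 2))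
  have hK : K ≤ ∑ v ∈ Ico v₀ V, 1 / (v : ℝ) := (le_max_left _ _).trans ((le_max_left _ _).trans hV2)
  have h1 : 1 ≤ ∑ v ∈ Ico v₀ V, 1 / (v : ℝ) := (le_max_right _ _).trans ((le_max_left _ _).trans hV2)
  have h2 : 8 * C / ε ^ 2 ≤ ∑ v ∈ Ico v₀ V, 1 / (v : ℝ) := (le_max_right _ _).trans hV2
  refine ⟨v₀, V, hv₀, hV1, hK, ?_⟩
  set LL := ∑ v ∈ Ico v₀ V, 1 / (v : ℝ) with hLL
  set f : ℝ := (Fintype.card (ZMod q)ˣ : ℝ) with hf
  have hf1 : 1 ≤ f := by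
    rw [hf]
    exact_mod_cast Fintype.card_pos
  set L : ℝ := f * LL with hL
  have hLL : 0 < LL := by linarith
  have hL1 : 1 ≤ L := by rw [hL]; nlinarith
  have hL2 : 8 * C / ε ^ 2 ≤ L := h2.trans (by rw [hL]; nlinarith)
  set T : Finset (ℕ × (ZMod q)ˣ) := Ico v₀ V ×ˢ univ with hT
  set mm : ℕ × (ZMod q)ˣ → ℝ := fun i => ∑ p ∈ PB q H i, 1 / (p : ℝ) with hmm
  set w : ℕ × (ZMod q)ˣ → ℝ := fun i => 1 / (i.1 * mm i) with hw
  have hTm : ∀ i ∈ T, (1 : ℝ) ≤ i.1 ∧ c / i.1 ≤ mm i := by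
    intro i hi
    rw [hT, mem_product, mem_Ico] at hi
    refine ⟨by exact_mod_cast hv₀.trans hi.1.1, ?_⟩
    have := hlow i.1 hi.1.1 i.2
    exact this
  have hmpos : ∀ i ∈ T, 0 < mm i := fun i hi =>
    lt_of_lt_of_le (div_pos hc (by linarith [(hTm i hi).1])) (hTm i hi).2
  have hw0 : ∀ i ∈ T, 0 ≤ w i := by
    intro i hi
    have e1 := (hTm i hi).1
    have e2 := hmpos i hi
    rw [hw]
    simp only
    positivity
  have hwC : ∀ i ∈ T, w i ≤ C := by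
    intro i hi
    have e1 := (hTm i hi).1
    have e2 := (hTm i hi).2
    rw [hw, hC]
    simp only
    apply one_div_le_one_div_of_le hc
    rw [div_le_iff₀ (by linarith)] at e2
    linarith
  have hwm : ∀ i ∈ T, w i * mm i = 1 / (i.1 : ℝ) := by
    intro i hi
    have e1 := (hTm i hi).1
    have e2 := (hmpos i hi).ne'
    have e3 : (i.1 : ℝ) ≠ 0 := by linarith
    rw [hw]
    simp only
    field_simp
  have hLs : L = ∑ i ∈ T, w i * ∑ p ∈ PB q H i, 1 / (p : ℝ) := by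
    have e : ∑ i ∈ T, w i * ∑ p ∈ PB q H i, 1 / (p : ℝ) = ∑ i ∈ T, 1 / (i.1 : ℝ) :=
      sum_congr rfl fun i hi => hwm i hi
    rw [e, hT, sum_product]
    simp only [sum_const, card_univ, nsmul_eq_mul]
    rw [← mul_sum]
  set WW : ℝ := ∑ i ∈ T, w i * ((PB q H i).card : ℝ) with hW
  have hW0 : 0 ≤ WW := sum_nonneg fun i hi => mul_nonneg (hw0 i hi) (Nat.cast_nonneg _)
  refine ⟨max (max 1 (2 * WW / C + 1)) (2 * WW / ε), ⌈Real.exp (((V : ℝ) + 1) / H)⌉₊, fun S σ U hσ x hx φ hφ => ?_⟩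
  have hpW : ∀ i ∈ T, ∀ p ∈ PB q H i, p ≤ ⌈Real.exp (((V : ℝ) + 1) / H)⌉₊ := by
    intro i hi p hp
    rw [hT, mem_product, mem_Ico] at hi
    have e1 := (PB_mem hp).2.2.1
    have e2 : (i.1 : ℝ) ≤ V := by exact_mod_cast hi.1.2.le
    have e3 : Real.exp (((i.1 : ℝ) + 1) / H) ≤ Real.exp (((V : ℝ) + 1) / H) :=
      Real.exp_le_exp.2 (div_le_div_of_nonneg_right (by linarith) hH0.le)
    exact_mod_cast (e1.trans e3).trans (Nat.le_ceil _)
  have hx1 : 1 ≤ x := (le_max_left _ _).trans ((le_max_left _ _).trans hx)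
  have hx2 : 2 * WW / C + 1 ≤ x := (le_max_right _ _).trans ((le_max_left _ _).trans hx)
  have hx3 : 2 * WW / ε ≤ x := (le_max_right _ _).trans hx
  have hx0 : 0 < x := by linarith
  have hNx : ((⌊x⌋₊ : ℕ) : ℝ) ≤ x := Nat.floor_le hx0.le
  have hN : 2 * ∑ i ∈ T, w i * ((PB q H i).card : ℝ) ≤ C * (⌊x⌋₊ : ℕ) := by
    have e1 : 2 * WW / C ≤ (⌊x⌋₊ : ℕ) := by
      have := Nat.lt_floor_add_one x
      linarith
    rw [div_le_iff₀ hC0] at e1
    rw [← hW]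
    linarith
  have hk := tk_fam T (PB q H) (fun i _ p hp => (PB_mem hp).1) (fun i _ j _ hij => PB_disj hH i j hij) w hw0 C hC0.le
    hwC L hLs ⌊x⌋₊ (fun n => φ (σ n) (n : ZMod q)) (fun n => hφ _ _) hN
  have hS : ∑ n ∈ Icc 1 ⌊x⌋₊, φ (σ n) (n : ZMod q) = SP σ q φ ⌊x⌋₊ := rfl
  rw [hS] at hk
  have hin : ∑ i ∈ T, w i * ∑ p ∈ PB q H i, ∑ m ∈ Icc 1 (⌊x⌋₊ / p), φ (σ (p * m)) ((p * m : ℕ) : ZMod q) =
      ∑ i ∈ T, w i * ∑ p ∈ PB q H i, SP σ q (act U i.2 φ) ⌊x / p⌋₊ := by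
    apply sum_congr rfl
    intro i hi
    congr 1
    apply sum_congr rfl
    intro p hp
    rw [SP_mul hσ φ p (PB_mem hp).1 (hpW i hi p hp) i.2 (PB_mem hp).2.2.2, Nat.floor_div_natCast]
  rw [hin] at hk
  set MM : ℕ × (ZMod q)ˣ → ℝ := fun i => ME σ q (act U i.2 φ) (x * Real.exp (-((i.1 : ℝ) / H))) with hMM
  have hcmp : |∑ i ∈ T, w i * ∑ p ∈ PB q H i, SP σ q (act U i.2 φ) ⌊x / p⌋₊ - x * ∑ i ∈ T, 1 / (i.1 : ℝ) * MM i| ≤
      4 * x * L / H + WW := by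
    have e1 : x * ∑ i ∈ T, 1 / (i.1 : ℝ) * MM i = ∑ i ∈ T, w i * ∑ p ∈ PB q H i, x / p * MM i := by
      rw [mul_sum]
      apply sum_congr rfl
      intro i hi
      rw [← hwm i hi, hmm]
      simp only
      rw [mul_sum, mul_sum, sum_mul, mul_sum]
      apply sum_congr rfl
      intro p _
      ring
    rw [e1, ← sum_sub_distrib]
    refine (abs_sum_le_sum_abs _ _).trans ?_
    have e2 : ∀ i ∈ T, |w i * ∑ p ∈ PB q H i, SP σ q (act U i.2 φ) ⌊x / p⌋₊ - w i * ∑ p ∈ PB q H i, x / p * MM i| ≤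
        (4 * x / H) * (w i * ∑ p ∈ PB q H i, 1 / (p : ℝ)) + w i * ((PB q H i).card : ℝ) := by
      intro i hi
      rw [← mul_sub, ← sum_sub_distrib, abs_mul, abs_of_nonneg (hw0 i hi)]
      have e3 : |∑ p ∈ PB q H i, ((SP σ q (act U i.2 φ) ⌊x / p⌋₊) - x / p * MM i)| ≤
          ∑ p ∈ PB q H i, (4 * (x / p) / H + 1) := by
        refine (abs_sum_le_sum_abs _ _).trans ?_
        apply sum_le_sum
        intro p hp
        obtain ⟨p1, p2, p3, _⟩ := PB_mem hp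
        have hp0 : (0 : ℝ) < p := by exact_mod_cast p1.pos
        apply SP_cmp (act_B1 hφ) hH (by positivity)
        · rw [Real.exp_neg, div_eq_mul_inv]
          apply mul_le_mul_of_nonneg_left _ hx0.le
          rw [inv_le_inv₀ hp0 (Real.exp_pos _)]
          exact p2.le
        · rw [Real.exp_neg]
          have e4 : ((i.1 : ℝ) + 1) / H = (i.1 : ℝ) / H + 1 / H := by ring
          rw [e4, Real.exp_add] at p3
          have e5 : 0 < Real.exp ((i.1 : ℝ) / H) := Real.exp_pos _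
          rw [div_mul_eq_mul_div, ← div_eq_mul_inv, div_le_div_iff₀ e5 hp0]
          have := mul_le_mul_of_nonneg_left p3 hx0.le
          linarith
      refine (mul_le_mul_of_nonneg_left e3 (hw0 i hi)).trans (le_of_eq ?_)
      rw [sum_add_distrib, sum_const, nsmul_eq_mul, mul_one, mul_add]
      congr 1
      rw [mul_left_comm (4 * x / (H : ℝ))]
      congr 1
      rw [mul_sum]
      apply sum_congr rfl
      intro p _
      ring
    refine (sum_le_sum e2).trans (le_of_eq ?_)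
    rw [sum_add_distrib, ← mul_sum, ← hLs]
    ring
  have hfin : |L * SP σ q φ ⌊x⌋₊ - x * ∑ i ∈ T, 1 / (i.1 : ℝ) * MM i| ≤ x * √(2 * C * L) + (4 * x * L / H + WW) := by
    have e1 : L * SP σ q φ ⌊x⌋₊ - x * ∑ i ∈ T, 1 / (i.1 : ℝ) * MM i =
        (L * SP σ q φ ⌊x⌋₊ - ∑ i ∈ T, w i * ∑ p ∈ PB q H i, SP σ q (act U i.2 φ) ⌊x / p⌋₊) +
        (∑ i ∈ T, w i * ∑ p ∈ PB q H i, SP σ q (act U i.2 φ) ⌊x / p⌋₊ - x * ∑ i ∈ T, 1 / (i.1 : ℝ) * MM i) := by ring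
    rw [e1]
    refine (abs_add_le _ _).trans (add_le_add (hk.trans ?_) hcmp)
    exact mul_le_mul_of_nonneg_right hNx (Real.sqrt_nonneg _)
  have hsq : √(2 * C * L) ≤ ε / 2 * L := by
    rw [Real.sqrt_le_left (by positivity)]
    rw [div_le_iff₀ (by positivity)] at hL2
    nlinarith
  have hTs : ∑ v ∈ Ico v₀ V, 1 / (v : ℝ) * ∑ r : (ZMod q)ˣ, ME σ q (act U r φ) (x * Real.exp (-((v : ℝ) / H))) =
      ∑ i ∈ T, 1 / (i.1 : ℝ) * MM i := by
    rw [hT, sum_product]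
    apply sum_congr rfl
    intro v _
    rw [mul_sum]
  rw [hTs]
  have e2 : ME σ q φ x - 1 / L * ∑ i ∈ T, 1 / (i.1 : ℝ) * MM i =
      (L * SP σ q φ ⌊x⌋₊ - x * ∑ i ∈ T, 1 / (i.1 : ℝ) * MM i) / (L * x) := by
    unfold ME
    field_simp
  rw [e2, abs_div, abs_of_pos (by positivity : 0 < L * x), div_le_iff₀ (by positivity)]
  refine hfin.trans ?_
  have e3 : WW ≤ ε / 2 * (L * x) := by
    rw [div_le_iff₀ hε] at hx3
    nlinarith
  have e4 : x * √(2 * C * L) ≤ ε / 2 * (L * x) := by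
    have := mul_le_mul_of_nonneg_left hsq hx0.le
    linarith
  have e5 : (ε + 4 / H) * (L * x) = ε / 2 * (L * x) + (4 * x * L / H + ε / 2 * (L * x)) := by ring
  rw [e5]
  linarith

/-- invariance under a fixed number of steps of the lattice of scales -/
lemma scale_lat (q : ℕ) [NeZero q] (H : ℕ) (hH : 1 ≤ H) (s : ℕ) {ε : ℝ} (hε : 0 < ε) :
    ∃ (x₀ : ℝ) (W : ℕ), ∀ (S : Type) (σ : ℕ → S) (U : S → S), Sta σ U W → ∀ x ≥ x₀, ∀ φ : S → ZMod q → ℝ, B1 φ →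
      |ME σ q φ x - ME σ q φ (x * Real.exp (-((s : ℝ) / H)))| ≤ ε + 8 / H := by
  obtain ⟨v₀, V, h0, hV, hK, x₀, W₀, hx₀⟩ := claimA q H hH (max 1 (3 * 3 * s / ε)) (by positivity : 0 < ε / 3)
  have hK1 : 1 ≤ ∑ v ∈ Ico v₀ V, 1 / (v : ℝ) := (le_max_left _ _).trans hK
  have hK2 : 3 * 3 * s / ε ≤ ∑ v ∈ Ico v₀ V, 1 / (v : ℝ) := (le_max_right _ _).trans hK
  set LL := ∑ v ∈ Ico v₀ V, 1 / (v : ℝ) with hLL
  set f : ℝ := (Fintype.card (ZMod q)ˣ : ℝ) with hf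
  have hf1 : 1 ≤ f := by
    rw [hf]
    exact_mod_cast Fintype.card_pos
  have he : 0 < Real.exp (-((s : ℝ) / H)) := Real.exp_pos _
  refine ⟨max 1 (max x₀ (x₀ / Real.exp (-((s : ℝ) / H)))), W₀, fun S σ U hσ x hx φ hφ => ?_⟩
  have hx1 : 1 ≤ x := (le_max_left _ _).trans hx
  have hx2 : x₀ ≤ x := (le_max_left _ _).trans ((le_max_right _ _).trans hx)
  have hx3 : x₀ ≤ x * Real.exp (-((s : ℝ) / H)) := by
    rw [← div_le_iff₀ he]
    exact (le_max_right _ _).trans ((le_max_right _ _).trans hx)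
  have hx0 : 0 < x := by linarith
  have a1 := hx₀ S σ U hσ x hx2 φ hφ
  have a2 := hx₀ S σ U hσ _ hx3 φ hφ
  set A : ℕ → ℝ := fun v => 1 / f * ∑ r : (ZMod q)ˣ, ME σ q (act U r φ) (x * Real.exp (-((v : ℝ) / H))) with hA
  have hA1 : ∀ v, |A v| ≤ 1 := by
    intro v
    rw [hA]
    simp only
    rw [abs_mul, abs_of_nonneg (by positivity : 0 ≤ 1 / f), div_mul_eq_mul_div, one_mul, div_le_one (by linarith)]
    refine (abs_sum_le_sum_abs _ _).trans ?_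
    refine (sum_le_sum fun r _ => ME_abs (act_B1 hφ) (by positivity)).trans ?_
    rw [sum_const, card_univ, nsmul_eq_mul, mul_one]
  have b1 : 1 / (f * LL) * ∑ v ∈ Ico v₀ V, 1 / (v : ℝ) * ∑ r : (ZMod q)ˣ, ME σ q (act U r φ) (x * Real.exp (-((v : ℝ) / H))) =
      1 / LL * ∑ v ∈ Ico v₀ V, 1 / (v : ℝ) * A v := by
    have e1 : 1 / (f * LL) = 1 / LL * (1 / f) := by field_simp
    rw [e1, mul_assoc, mul_sum]
    congr 1
    apply sum_congr rfl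
    intro v _
    rw [hA]
    ring
  have b2 : 1 / (f * LL) * ∑ v ∈ Ico v₀ V, 1 / (v : ℝ) * ∑ r : (ZMod q)ˣ, ME σ q (act U r φ)
      (x * Real.exp (-((s : ℝ) / H)) * Real.exp (-((v : ℝ) / H))) =
      1 / LL * ∑ v ∈ Ico v₀ V, 1 / (v : ℝ) * A (v + s) := by
    have e1 : 1 / (f * LL) = 1 / LL * (1 / f) := by field_simp
    rw [e1, mul_assoc, mul_sum]
    congr 1
    apply sum_congr rfl
    intro v _
    rw [hA]
    simp only
    have e2 : x * Real.exp (-((s : ℝ) / H)) * Real.exp (-((v : ℝ) / H)) = x * Real.exp (-(((v + s : ℕ) : ℝ) / H)) := by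
      rw [mul_assoc, ← Real.exp_add]
      congr 2
      push_cast
      ring
    rw [e2]
    ring
  rw [b1] at a1
  rw [b2] at a2
  have c1 := shift_many A hA1 v₀ V h0 hV s
  have c2 : |1 / LL * ∑ v ∈ Ico v₀ V, 1 / (v : ℝ) * A v - 1 / LL * ∑ v ∈ Ico v₀ V, 1 / (v : ℝ) * A (v + s)| ≤ ε / 3 := by
    rw [← mul_sub, ← sum_sub_distrib, abs_mul, abs_of_nonneg (by positivity : 0 ≤ 1 / LL)]
    have e3 : ∑ v ∈ Ico v₀ V, (1 / (v : ℝ) * A v - 1 / (v : ℝ) * A (v + s)) = ∑ v ∈ Ico v₀ V, 1 / (v : ℝ) * (A v - A (v + s)) := by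
      apply sum_congr rfl
      intro v _
      ring
    rw [e3, div_mul_eq_mul_div, one_mul, div_le_iff₀ (by linarith)]
    rw [div_le_iff₀ hε] at hK2
    linarith
  set X1 := ME σ q φ x
  set X2 := ME σ q φ (x * Real.exp (-((s : ℝ) / H)))
  set Y1 := 1 / LL * ∑ v ∈ Ico v₀ V, 1 / (v : ℝ) * A v
  set Y2 := 1 / LL * ∑ v ∈ Ico v₀ V, 1 / (v : ℝ) * A (v + s)
  have e : X1 - X2 = (X1 - Y1) + (Y1 - Y2) - (X2 - Y2) := by ring
  rw [e]
  refine (abs_sub _ _).trans ?_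
  have := abs_add_le (X1 - Y1) (Y1 - Y2)
  have e8 : (8 : ℝ) / H = 4 / H + 4 / H := by ring
  linarith

/-- invariance of the means under a change of scale -/
lemma scale_inv (q : ℕ) [NeZero q] {δ ε : ℝ} (hδ : 0 < δ) (hε : 0 < ε) :
    ∃ (x₀ : ℝ) (W : ℕ), ∀ (S : Type) (σ : ℕ → S) (U : S → S), Sta σ U W → ∀ x ≥ x₀, ∀ x', δ * x ≤ x' → x' ≤ x → ∀ φ : S → ZMod q → ℝ, B1 φ →
      |ME σ q φ x - ME σ q φ x'| ≤ ε := by
  obtain ⟨H, hH⟩ := exists_nat_ge (max 1 (36 / ε))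
  have hH1 : (1 : ℝ) ≤ H := (le_max_left _ _).trans hH
  have hH2 : 36 / ε ≤ H := (le_max_right _ _).trans hH
  have hHn : 1 ≤ H := by exact_mod_cast hH1
  have h12 : 12 / (H : ℝ) ≤ ε / 3 := by
    rw [div_le_iff₀ hε] at hH2
    rw [div_le_iff₀ (by linarith)]
    linarith
  have hl : ∀ s : ℕ, ∃ (x₀ : ℝ) (W : ℕ), ∀ (S : Type) (σ : ℕ → S) (U : S → S), Sta σ U W → ∀ x ≥ x₀, ∀ φ : S → ZMod q → ℝ, B1 φ →
      |ME σ q φ x - ME σ q φ (x * Real.exp (-((s : ℝ) / H)))| ≤ ε / 3 + 8 / H := fun s => scale_lat q H hHn s (by positivity)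
  choose X WX hX using hl
  set S₁ : ℕ := ⌈(H : ℝ) * Real.log (1 / δ)⌉₊ with hS
  refine ⟨max (max 1 (3 / (ε * δ))) (∑ s ∈ range (S₁ + 1), |X s|), ∑ s ∈ range (S₁ + 1), WX s,
    fun S σ U hσ x hx x' h1 h2 φ hφ => ?_⟩
  have hx1 : 1 ≤ x := (le_max_left _ _).trans ((le_max_left _ _).trans hx)
  have hx2 : 3 / (ε * δ) ≤ x := (le_max_right _ _).trans ((le_max_left _ _).trans hx)
  have hx3 : ∑ s ∈ range (S₁ + 1), |X s| ≤ x := (le_max_right _ _).trans hx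
  have hx0 : 0 < x := by linarith
  have hx'0 : 0 < x' := lt_of_lt_of_le (by positivity) h1
  have hlog0 : 0 ≤ Real.log (x / x') := Real.log_nonneg (by rw [le_div_iff₀ hx'0]; linarith)
  set s : ℕ := ⌊(H : ℝ) * Real.log (x / x')⌋₊ with hs
  have hsS : s ≤ S₁ := by
    refine (Nat.floor_le_ceil _).trans (Nat.ceil_le_ceil ?_)
    apply mul_le_mul_of_nonneg_left _ (by linarith)
    apply Real.log_le_log (by positivity)
    rw [div_le_div_iff₀ hx'0 hδ]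
    linarith
  have hs1 : (s : ℝ) / H ≤ Real.log (x / x') := by
    rw [div_le_iff₀ (by linarith), mul_comm]
    exact Nat.floor_le (by positivity)
  have hs2 : Real.log (x / x') ≤ (s : ℝ) / H + 1 / H := by
    rw [← add_div, le_div_iff₀ (by linarith), mul_comm]
    exact (Nat.lt_floor_add_one _).le
  have hxs : X s ≤ x := by
    refine (le_abs_self _).trans ((single_le_sum (f := fun s => |X s|) (fun i _ => abs_nonneg _) ?_).trans hx3)
    exact mem_range.2 (by omega)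
  have hWs : WX s ≤ ∑ s ∈ range (S₁ + 1), WX s :=
    single_le_sum (f := WX) (fun _ _ => Nat.zero_le _) (mem_range.2 (by omega))
  have a1 := hX s S σ U (hσ.mono hWs) x hxs φ hφ
  have hxe : x / x' = Real.exp (Real.log (x / x')) := (Real.exp_log (by positivity)).symm
  have g1 : x' ≤ x * Real.exp (-((s : ℝ) / H)) := by
    rw [Real.exp_neg, ← div_eq_mul_inv, le_div_iff₀ (Real.exp_pos _)]
    have := Real.exp_le_exp.2 hs1
    rw [← hxe, le_div_iff₀ hx'0] at this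
    linarith
  have g2 : x * Real.exp (-((s : ℝ) / H)) ≤ x' * Real.exp (1 / (H : ℝ)) := by
    rw [Real.exp_neg, ← div_eq_mul_inv, div_le_iff₀ (Real.exp_pos _)]
    have := Real.exp_le_exp.2 hs2
    rw [← hxe, div_le_iff₀ hx'0, Real.exp_add] at this
    linarith
  have a2 := SP_cmp (σ := σ) hφ hHn hx'0 g1 g2
  have a3 : |ME σ q φ x' - ME σ q φ (x * Real.exp (-((s : ℝ) / H)))| ≤ 4 / H + ε / 3 := by
    have e1 : ME σ q φ x' - ME σ q φ (x * Real.exp (-((s : ℝ) / H))) =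
        (SP σ q φ ⌊x'⌋₊ - x' * ME σ q φ (x * Real.exp (-((s : ℝ) / H)))) / x' := by
      rw [sub_div, mul_div_cancel_left₀ _ hx'0.ne']
      rfl
    rw [e1, abs_div, abs_of_pos hx'0, div_le_iff₀ hx'0]
    refine a2.trans ?_
    have e2 : 1 ≤ ε / 3 * x' := by
      rw [div_le_iff₀ (by positivity)] at hx2
      have := mul_le_mul_of_nonneg_left h1 hε.le
      nlinarith
    have e3 : (4 / H + ε / 3) * x' = 4 * x' / H + ε / 3 * x' := by ring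
    rw [e3]
    linarith
  set Z := ME σ q φ (x * Real.exp (-((s : ℝ) / H)))
  have e : ME σ q φ x - ME σ q φ x' = (ME σ q φ x - Z) - (ME σ q φ x' - Z) := by ring
  rw [e]
  refine (abs_sub _ _).trans ?_
  have e12 : (12 : ℝ) / H = 8 / H + 4 / H := by ring
  linarith

/-- invariance of the means under units -/
lemma unit_inv (q : ℕ) [NeZero q] {ε : ℝ} (hε : 0 < ε) :
    ∃ (x₀ : ℝ) (W : ℕ), ∀ (S : Type) (σ : ℕ → S) (U : S → S), Sta σ U W → ∀ x ≥ x₀, ∀ u : (ZMod q)ˣ, ∀ φ : S → ZMod q → ℝ, B1 φ →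
      |ME σ q φ x - ME σ q (uact u φ) x| ≤ ε := by
  obtain ⟨H, hH⟩ := exists_nat_ge (max 1 (16 / ε))
  have hH1 : (1 : ℝ) ≤ H := (le_max_left _ _).trans hH
  have hH2 : 16 / ε ≤ H := (le_max_right _ _).trans hH
  have hHn : 1 ≤ H := by exact_mod_cast hH1
  obtain ⟨v₀, V, h0, hV, hK, x₀, W₀, hx₀⟩ := claimA q H hHn 1 (by positivity : 0 < ε / 4)
  refine ⟨x₀, W₀, fun S σ U hσ x hx u φ hφ => ?_⟩
  have a1 := hx₀ S σ U hσ x hx φ hφ
  have a2 := hx₀ S σ U hσ x hx (uact u φ) (uact_B1 hφ)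
  have e1 : ∀ y : ℝ, ∑ r : (ZMod q)ˣ, ME σ q (act U r (uact u φ)) y = ∑ r : (ZMod q)ˣ, ME σ q (act U r φ) y := by
    intro y
    rw [← Equiv.sum_comp (Equiv.mulLeft u) (fun r => ME σ q (act U r φ) y)]
    apply sum_congr rfl
    intro r _
    congr 1
    funext l b
    simp only [act, uact, Equiv.coe_mulLeft, Units.val_mul, mul_assoc]
  simp_rw [e1] at a2
  set Y := 1 / ((Fintype.card (ZMod q)ˣ : ℝ) * ∑ v ∈ Ico v₀ V, 1 / (v : ℝ)) *
        ∑ v ∈ Ico v₀ V, 1 / (v : ℝ) * ∑ r : (ZMod q)ˣ, ME σ q (act U r φ) (x * Real.exp (-((v : ℝ) / H)))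
  have e : ME σ q φ x - ME σ q (uact u φ) x = (ME σ q φ x - Y) - (ME σ q (uact u φ) x - Y) := by ring
  rw [e]
  refine (abs_sub _ _).trans ?_
  have h4 : 4 / (H : ℝ) ≤ ε / 4 := by
    rw [div_le_iff₀ hε] at hH2
    rw [div_le_iff₀ (by linarith)]
    linarith
  linarith

/-- invariance of the means under the shift -/
lemma up_inv (q : ℕ) [NeZero q] {ε : ℝ} (hε : 0 < ε) :
    ∃ (x₀ : ℝ) (W : ℕ), ∀ (S : Type) (σ : ℕ → S) (U : S → S), Sta σ U W → ∀ x ≥ x₀, ∀ φ : S → ZMod q → ℝ, B1 φ → |ME σ q φ x - ME σ q (up U φ) x| ≤ ε := by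
  obtain ⟨H, hH⟩ := exists_nat_ge (max 1 (16 / ε))
  have hH1 : (1 : ℝ) ≤ H := (le_max_left _ _).trans hH
  have hH2 : 16 / ε ≤ H := (le_max_right _ _).trans hH
  have hHn : 1 ≤ H := by exact_mod_cast hH1
  obtain ⟨v₀, V, h0, hV, hK, x₀, W₀, hx₀⟩ := claimA q H hHn 1 (by positivity : 0 < ε / 4)
  set δ : ℝ := Real.exp (-((V : ℝ) / H)) with hδ
  have hδ0 : 0 < δ := Real.exp_pos _
  obtain ⟨x₁, W₁, hx₁⟩ := scale_inv q hδ0 (by positivity : 0 < ε / 4)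
  obtain ⟨x₂, W₂, hx₂⟩ := unit_inv q (by positivity : 0 < ε / 4)
  refine ⟨max (max 1 x₀) (max x₁ (x₂ / δ)), W₀ + W₁ + W₂, fun S σ U hσ x hx φ hφ => ?_⟩
  have g1 : 1 ≤ x := (le_max_left _ _).trans ((le_max_left _ _).trans hx)
  have g2 : x₀ ≤ x := (le_max_right _ _).trans ((le_max_left _ _).trans hx)
  have g3 : x₁ ≤ x := (le_max_left _ _).trans ((le_max_right _ _).trans hx)
  have g4 : x₂ ≤ δ * x := by
    have := (le_max_right _ _).trans ((le_max_right _ _).trans hx)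
    rw [div_le_iff₀ hδ0] at this
    linarith
  have hx0 : 0 < x := by linarith
  have a1 := hx₀ S σ U (hσ.mono (by omega)) x g2 φ hφ
  set LL := ∑ v ∈ Ico v₀ V, 1 / (v : ℝ) with hLL
  set f : ℝ := (Fintype.card (ZMod q)ˣ : ℝ) with hf
  have hf1 : 1 ≤ f := by
    rw [hf]
    exact_mod_cast Fintype.card_pos
  have hLL0 : 0 < LL := by linarith
  have hd : ∀ v ∈ Ico v₀ V, ∀ r : (ZMod q)ˣ, |ME σ q (act U r φ) (x * Real.exp (-((v : ℝ) / H))) - ME σ q (up U φ) x| ≤ ε / 2 := by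
    intro v hv r
    rw [mem_Ico] at hv
    have e1 : act U r φ = uact r (up U φ) := rfl
    rw [e1]
    set y := x * Real.exp (-((v : ℝ) / H)) with hy
    have hvV : (v : ℝ) ≤ V := by exact_mod_cast hv.2.le
    have y1 : δ * x ≤ y := by
      rw [hy, mul_comm]
      apply mul_le_mul_of_nonneg_left _ hx0.le
      rw [hδ]
      apply Real.exp_le_exp.2
      rw [neg_le_neg_iff]
      exact div_le_div_of_nonneg_right hvV (by linarith)
    have y2 : y ≤ x := by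
      rw [hy]
      apply mul_le_of_le_one_right hx0.le
      rw [Real.exp_le_one_iff, neg_nonpos]
      positivity
    have b1 := hx₁ S σ U (hσ.mono (by omega)) x g3 y y1 y2 (up U φ) (up_B1 hφ)
    have b2 := hx₂ S σ U (hσ.mono (by omega)) y (g4.trans y1) r (up U φ) (up_B1 hφ)
    have e2 : ME σ q (uact r (up U φ)) y - ME σ q (up U φ) x = -(ME σ q (up U φ) y - ME σ q (uact r (up U φ)) y) - (ME σ q (up U φ) x - ME σ q (up U φ) y) := by ring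
    rw [e2]
    refine (abs_sub _ _).trans ?_
    rw [abs_neg]
    linarith
  have a2 : |1 / (f * LL) * ∑ v ∈ Ico v₀ V, 1 / (v : ℝ) * ∑ r : (ZMod q)ˣ, ME σ q (act U r φ) (x * Real.exp (-((v : ℝ) / H))) -
      ME σ q (up U φ) x| ≤ ε / 2 := by
    have e3 : 1 / (f * LL) * ∑ v ∈ Ico v₀ V, 1 / (v : ℝ) * ∑ r : (ZMod q)ˣ, ME σ q (act U r φ) (x * Real.exp (-((v : ℝ) / H))) -
      ME σ q (up U φ) x = 1 / (f * LL) * ∑ v ∈ Ico v₀ V, 1 / (v : ℝ) * ∑ r : (ZMod q)ˣ,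
        (ME σ q (act U r φ) (x * Real.exp (-((v : ℝ) / H))) - ME σ q (up U φ) x) := by
      have e4 : ∑ v ∈ Ico v₀ V, 1 / (v : ℝ) * ∑ r : (ZMod q)ˣ,
        (ME σ q (act U r φ) (x * Real.exp (-((v : ℝ) / H))) - ME σ q (up U φ) x) =
        ∑ v ∈ Ico v₀ V, 1 / (v : ℝ) * ∑ r : (ZMod q)ˣ, ME σ q (act U r φ) (x * Real.exp (-((v : ℝ) / H))) -
        LL * f * ME σ q (up U φ) x := by
        rw [hLL, sum_mul, sum_mul, ← sum_sub_distrib]
        apply sum_congr rfl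
        intro v _
        rw [sum_sub_distrib, sum_const, card_univ, nsmul_eq_mul]
        ring
      rw [e4]
      field_simp
    rw [e3, abs_mul, abs_of_nonneg (by positivity : 0 ≤ 1 / (f * LL))]
    have e5 : |∑ v ∈ Ico v₀ V, 1 / (v : ℝ) * ∑ r : (ZMod q)ˣ,
        (ME σ q (act U r φ) (x * Real.exp (-((v : ℝ) / H))) - ME σ q (up U φ) x)| ≤ LL * (f * (ε / 2)) := by
      rw [hLL, sum_mul]
      refine (abs_sum_le_sum_abs _ _).trans (sum_le_sum fun v hv => ?_)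
      rw [abs_mul, abs_of_nonneg (by positivity : (0 : ℝ) ≤ 1 / v)]
      apply mul_le_mul_of_nonneg_left _ (by positivity)
      refine (abs_sum_le_sum_abs _ _).trans ((sum_le_sum fun r _ => hd v hv r).trans ?_)
      rw [sum_const, card_univ, nsmul_eq_mul]
    rw [div_mul_eq_mul_div, one_mul, div_le_iff₀ (by positivity)]
    refine e5.trans (le_of_eq (by ring))
  set Y := 1 / (f * LL) * ∑ v ∈ Ico v₀ V, 1 / (v : ℝ) * ∑ r : (ZMod q)ˣ, ME σ q (act U r φ) (x * Real.exp (-((v : ℝ) / H)))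
  have e : ME σ q φ x - ME σ q (up U φ) x = (ME σ q φ x - Y) + (Y - ME σ q (up U φ) x) := by ring
  rw [e]
  refine (abs_add_le _ _).trans ?_
  have h4 : 4 / (H : ℝ) ≤ ε / 4 := by
    rw [div_le_iff₀ hε] at hH2
    rw [div_le_iff₀ (by linarith)]
    linarith
  linarith


end Pool.Agent.J4.H12.ST
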