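import Pool.Agent.J4.H12.ST.A

/-!
Equidistribution in residue classes of the functions of the state `σ n` of `n`, where
`σ (p m) = U (σ m)` at the small primes (a version of `Pool.Agent.TH575.OM.Eqd4`).
-/

set_option autoImplicit false

namespace Pool.Agent.J4.H12.ST

open Finset Filter Topology ArithmeticFunction

/-- the sum of a function of the number of prime factors over a residue class -/
noncomputable def SA {S : Type} (σ : ℕ → S) (a : S → ℝ) (q b N : ℕ) : ℝ := ∑ n ∈ Icc 1 N, if n % q = b % q then a (σ n) else 0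

/-- bounded by one -/
def B0 {S : Type} (a : S → ℝ) : Prop := ∀ l, |a l| ≤ 1

/-- the mean at `x` of a function of the number of prime factors -/
noncomputable def Mn {S : Type} (σ : ℕ → S) (a : S → ℝ) (x : ℝ) : ℝ := SA σ a 1 0 ⌊x⌋₊ / x

/-- the function of the class -/
noncomputable def cla {S : Type} (a : S → ℝ) (q b : ℕ) : S → ZMod q → ℝ := fun l c => if c = (b : ZMod q) then a l else 0

lemma cla_B1 {S : Type} {a : S → ℝ} (ha : B0 a) (q b : ℕ) : B1 (cla a q b) := by
  intro l c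
  unfold cla
  split_ifs
  · exact ha l
  · simp

lemma SP_cla {S : Type} (σ : ℕ → S) (a : S → ℝ) (q b N : ℕ) : SP σ q (cla a q b) N = SA σ a q b N := by
  unfold SP SA cla
  apply sum_congr rfl
  intro n _
  simp only [ZMod.natCast_eq_natCast_iff']

lemma ME_cla {S : Type} (σ : ℕ → S) (a : S → ℝ) (q b : ℕ) (x : ℝ) : ME σ q (cla a q b) x = SA σ a q b ⌊x⌋₊ / x := by
  unfold ME
  rw [SP_cla]

lemma ME_one {S : Type} (σ : ℕ → S) (a : S → ℝ) (x : ℝ) : ME σ 1 (cla a 1 0) x = Mn σ a x := ME_cla σ a 1 0 x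

lemma Mn_abs {S : Type} {σ : ℕ → S} {a : S → ℝ} (ha : B0 a) {x : ℝ} (hx : 0 < x) : |Mn σ a x| ≤ 1 := by
  rw [← ME_one]
  exact ME_abs (cla_B1 ha _ _) hx

lemma Mn_scale {δ ε : ℝ} (hδ : 0 < δ) (hε : 0 < ε) :
    ∃ (x₀ : ℝ) (W : ℕ), ∀ (S : Type) (σ : ℕ → S) (U : S → S), Sta σ U W → ∀ x ≥ x₀, ∀ x', δ * x ≤ x' → x' ≤ x →
      ∀ a : S → ℝ, B0 a → |Mn σ a x - Mn σ a x'| ≤ ε := by
  obtain ⟨x₀, W, hx₀⟩ := scale_inv 1 hδ hε
  refine ⟨x₀, W, fun S σ U hσ x hx x' h1 h2 a ha => ?_⟩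
  rw [← ME_one, ← ME_one]
  exact hx₀ S σ U hσ x hx x' h1 h2 _ (cla_B1 ha _ _)

lemma Mn_up {ε : ℝ} (hε : 0 < ε) :
    ∃ (x₀ : ℝ) (W : ℕ), ∀ (S : Type) (σ : ℕ → S) (U : S → S), Sta σ U W → ∀ x ≥ x₀,
      ∀ a : S → ℝ, B0 a → |Mn σ a x - Mn σ (fun l => a (U l)) x| ≤ ε := by
  obtain ⟨x₀, W, hx₀⟩ := up_inv 1 hε
  refine ⟨x₀, W, fun S σ U hσ x hx a ha => ?_⟩
  rw [← ME_one, ← ME_one]
  exact hx₀ S σ U hσ x hx _ (cla_B1 ha _ _)

lemma Mn_ups (t : ℕ) : ∀ ε : ℝ, 0 < ε →
    ∃ (x₀ : ℝ) (W : ℕ), ∀ (S : Type) (σ : ℕ → S) (U : S → S), Sta σ U W → ∀ x ≥ x₀,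
      ∀ a : S → ℝ, B0 a → |Mn σ a x - Mn σ (fun l => a (U^[t] l)) x| ≤ ε := by
  induction t with
  | zero =>
    intro ε hε
    refine ⟨0, 0, fun S σ U _ x _ a _ => ?_⟩
    simp only [Function.iterate_zero, id_eq, sub_self, abs_zero]
    exact hε.le
  | succ t ih =>
    intro ε hε
    obtain ⟨x₀, W₀, hx₀⟩ := ih (ε / 2) (by positivity)
    obtain ⟨x₁, W₁, hx₁⟩ := Mn_up (by positivity : 0 < ε / 2)
    refine ⟨max x₀ x₁, W₀ + W₁, fun S σ U hσ x hx a ha => ?_⟩
    have a1 := hx₀ S σ U (hσ.mono (by omega)) x ((le_max_left _ _).trans hx) a ha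
    have a2 := hx₁ S σ U (hσ.mono (by omega)) x ((le_max_right _ _).trans hx) (fun l => a (U^[t] l))
      (fun l => ha _)
    have e1 : (fun l => (fun l => a (U^[t] l)) (U l)) = fun l => a (U^[t + 1] l) := by
      funext l
      simp only [Function.iterate_succ, Function.comp_apply]
    rw [e1] at a2
    have e2 : Mn σ a x - Mn σ (fun l => a (U^[t + 1] l)) x =
        (Mn σ a x - Mn σ (fun l => a (U^[t] l)) x)
          + (Mn σ (fun l => a (U^[t] l)) x - Mn σ (fun l => a (U^[t + 1] l)) x) := by ring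
    rw [e2]
    refine (abs_add_le _ _).trans ?_
    linarith

/-- the state of a multiple -/
lemma Sta.mul {S : Type} {σ : ℕ → S} {U : S → S} {W : ℕ} (hσ : Sta σ U W) :
    ∀ e : ℕ, 0 < e → e ≤ W → ∀ m : ℕ, 0 < m → σ (e * m) = U^[cardFactors e] (σ m) := by
  intro e
  induction e using Nat.strong_induction_on with
  | _ e ih =>
  intro he heW m hm
  rcases Nat.lt_or_ge 1 e with h1 | h1
  · obtain ⟨p, hp, e', rfl⟩ := Nat.exists_prime_and_dvd (by omega : e ≠ 1)
    have he'0 : 0 < e' := by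
      rcases Nat.eq_zero_or_pos e' with h | h
      · subst h; simp at he
      · exact h
    have hlt : e' < p * e' := by
      have := hp.two_le
      nlinarith
    have hpe : p ≤ p * e' := Nat.le_mul_of_pos_right _ he'0
    rw [mul_assoc, hσ p hp (hpe.trans heW) (e' * m) (Nat.mul_pos he'0 hm),
      ih e' hlt he'0 (hlt.le.trans heW) m hm, cardFactors_mul hp.ne_zero he'0.ne',
      cardFactors_apply_prime hp, add_comm 1, Function.iterate_succ_apply']
  · obtain rfl : e = 1 := by omega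
    simp

lemma SA_dvd {S : Type} {σ : ℕ → S} {U : S → S} {W : ℕ} (hσ : Sta σ U W) (a : S → ℝ) (e q b N : ℕ)
    (he : 0 < e) (heW : e ≤ W) :
    SA σ a (e * q) (e * b) N = SA σ (fun l => a (U^[cardFactors e] l)) q b (N / e) := by
  unfold SA
  have h1 := Pool.Agent.TH575.CW.sum_mult e N he (fun n => if n % (e * q) = e * b % (e * q) then a (σ n) else 0)
  have h2 : ∑ n ∈ Icc 1 N, (if e ∣ n then (1 : ℝ) else 0) * (if n % (e * q) = e * b % (e * q) then a (σ n) else 0) =
      ∑ n ∈ Icc 1 N, (if n % (e * q) = e * b % (e * q) then a (σ n) else 0) := by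
    apply sum_congr rfl
    intro n _
    by_cases h : e ∣ n
    · rw [if_pos h, one_mul]
    · rw [if_neg h, zero_mul, if_neg]
      intro h3
      apply h
      have h4 : e ∣ n % (e * q) := by
        rw [h3, Nat.mul_mod_mul_left]
        exact dvd_mul_right _ _
      have h5 := Nat.div_add_mod n (e * q)
      rw [← h5]
      exact dvd_add (dvd_mul_of_dvd_left (dvd_mul_right _ _) _) h4
  rw [← h2, h1]
  apply sum_congr rfl
  intro m hm
  rw [mem_Icc] at hm
  rw [Nat.mul_mod_mul_left, Nat.mul_mod_mul_left, hσ.mul e he heW m (by omega)]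
  have h3 : (e * (m % q) = e * (b % q)) ↔ (m % q = b % q) := Nat.mul_right_inj he.ne'
  simp only [h3]

lemma SA_class_sum {S : Type} (σ : ℕ → S) (a : S → ℝ) (q N : ℕ) (hq : 0 < q) : ∑ b ∈ range q, SA σ a q b N = SA σ a 1 0 N := by
  unfold SA
  rw [sum_comm]
  apply sum_congr rfl
  intro n _
  rw [Nat.mod_one, Nat.mod_one, if_pos rfl]
  rw [sum_eq_single (n % q)]
  · rw [if_pos (Nat.mod_mod _ _).symm]
  · intro b hb hne
    rw [if_neg]
    rw [Nat.mod_eq_of_lt (mem_range.1 hb)]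
    exact fun h => hne h.symm
  · intro h
    exact absurd (mem_range.2 (Nat.mod_lt _ hq)) h

/-- equidistribution in the residue classes -/
theorem equi (q : ℕ) : 0 < q → ∀ ε : ℝ, 0 < ε → ∃ (x₀ : ℝ) (W : ℕ), ∀ (S : Type) (σ : ℕ → S) (U : S → S), Sta σ U W → ∀ x ≥ x₀, ∀ b : ℕ, b < q → ∀ a : S → ℝ, B0 a →
    |SA σ a q b ⌊x⌋₊ / x - Mn σ a x / q| ≤ ε := by
  induction q using Nat.strong_induction_on with
  | _ q ih =>
  intro hq ε hε
  haveI : NeZero q := ⟨hq.ne'⟩
  have hq1 : (1 : ℝ) ≤ q := by exact_mod_cast hq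
  set ε' : ℝ := ε / (2 * q) with hε'
  have hε'0 : 0 < ε' := by positivity
  have hε'ε : ε' ≤ ε / 2 := by
    rw [hε']
    apply div_le_div_of_nonneg_left hε.le (by norm_num)
    linarith
  -- the classes which are not prime to the modulus
  have hnon : ∀ b : ℕ, ∃ (x₀ : ℝ) (W : ℕ), b < q → ¬ Nat.Coprime b q →
      ∀ (S : Type) (σ : ℕ → S) (U : S → S), Sta σ U W → ∀ x ≥ x₀, ∀ a : S → ℝ, B0 a →
      |SA σ a q b ⌊x⌋₊ / x - Mn σ a x / q| ≤ ε' := by
    intro b
    by_cases hb : b < q ∧ ¬ Nat.Coprime b q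
    swap
    · exact ⟨0, 0, fun h1 h2 => absurd ⟨h1, h2⟩ hb⟩
    set e := Nat.gcd b q with he
    have he0 : 0 < e := Nat.gcd_pos_of_pos_right _ hq
    have he1 : 1 < e := by
      have : e ≠ 1 := hb.2
      omega
    obtain ⟨b', hb'⟩ : e ∣ b := Nat.gcd_dvd_left _ _
    obtain ⟨q', hq'⟩ : e ∣ q := Nat.gcd_dvd_right _ _
    have hq'0 : 0 < q' := by
      rcases Nat.eq_zero_or_pos q' with h | h
      · rw [h, mul_zero] at hq'
        omega
      · exact h
    have hlt : q' < q := by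
      rw [hq']
      nlinarith
    have hbl : b' < q' := by
      have := hb.1
      rw [hb', hq'] at this
      exact lt_of_mul_lt_mul_left this (Nat.zero_le _)
    obtain ⟨x₁, W₁, hx₁⟩ := ih q' hlt hq'0 (ε' / 3) (by positivity)
    obtain ⟨x₂, W₂, hx₂⟩ := Mn_ups (cardFactors e) (ε' / 3) (by positivity)
    have heR : (0 : ℝ) < e := by exact_mod_cast he0
    obtain ⟨x₃, W₃, hx₃⟩ := Mn_scale (show (0 : ℝ) < 1 / e by positivity) (show 0 < ε' / 3 by positivity)
    refine ⟨max 1 (max x₃ (max (e * x₁) (e * x₂))), W₁ + W₂ + W₃ + e, fun _ _ S σ U hσ x hx a ha => ?_⟩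
    have g1 : 1 ≤ x := (le_max_left _ _).trans hx
    have g3 : x₃ ≤ x := (le_max_left _ _).trans ((le_max_right _ _).trans hx)
    have g4 : e * x₁ ≤ x := (le_max_left _ _).trans ((le_max_right _ _).trans ((le_max_right _ _).trans hx))
    have g5 : e * x₂ ≤ x := (le_max_right _ _).trans ((le_max_right _ _).trans ((le_max_right _ _).trans hx))
    have hx0 : 0 < x := by linarith
    have he1R : (1 : ℝ) ≤ e := by exact_mod_cast he0
    have g4' : x₁ ≤ x / e := by rw [le_div_iff₀ heR]; linarith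
    have g5' : x₂ ≤ x / e := by rw [le_div_iff₀ heR]; linarith
    have c1 := hx₁ S σ U (hσ.mono (by omega)) (x / e) g4' b' hbl (fun l => a (U^[cardFactors e] l)) (fun l => ha _)
    have c2 := hx₂ S σ U (hσ.mono (by omega)) (x / e) g5' a ha
    have c3 := hx₃ S σ U (hσ.mono (by omega)) x g3 (x / e) (le_of_eq (by ring)) (div_le_self hx0.le he1R) a ha
    have e1 : SA σ a q b ⌊x⌋₊ = SA σ (fun l => a (U^[cardFactors e] l)) q' b' ⌊x / e⌋₊ := by
      rw [Nat.floor_div_natCast]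
      nth_rewrite 1 [hb']
      nth_rewrite 1 [hq']
      exact SA_dvd hσ a e q' b' _ he0 (by omega)
    rw [e1]
    have hq'R : (1 : ℝ) ≤ q' := by exact_mod_cast hq'0
    have hqq : (q : ℝ) = e * q' := by exact_mod_cast hq'
    set SS := SA σ (fun l => a (U^[cardFactors e] l)) q' b' ⌊x / e⌋₊
    set M1 := Mn σ (fun l => a (U^[cardFactors e] l)) (x / e)
    set M2 := Mn σ a (x / e)
    set M3 := Mn σ a x
    have e2 : SS / x - M3 / q = ((SS / (x / e) - M1 / q') + (-(M2 - M1) + -(M3 - M2)) / q') / e := by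
      rw [hqq]
      field_simp
      ring
    rw [e2, abs_div, abs_of_pos heR, div_le_iff₀ heR]
    refine (abs_add_le _ _).trans ?_
    have e3 : |(-(M2 - M1) + -(M3 - M2)) / (q' : ℝ)| ≤ 2 * (ε' / 3) := by
      rw [abs_div, abs_of_pos (by linarith : (0 : ℝ) < q'), div_le_iff₀ (by linarith)]
      refine (abs_add_le _ _).trans ?_
      rw [abs_neg, abs_neg]
      nlinarith
    have e4 : ε' ≤ ε' * e := le_mul_of_one_le_right hε'0.le he1R
    linarith
  choose Xn Wn hXn using hnon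
  obtain ⟨xu, Wu, hxu⟩ := unit_inv q hε'0
  refine ⟨max 1 (max xu (∑ b ∈ range q, |Xn b|)), Wu + ∑ b ∈ range q, Wn b,
    fun S σ U hσ x hx b hb a ha => ?_⟩
  have g1 : 1 ≤ x := (le_max_left _ _).trans hx
  have g2 : xu ≤ x := (le_max_left _ _).trans ((le_max_right _ _).trans hx)
  have g3 : ∑ b ∈ range q, |Xn b| ≤ x := (le_max_right _ _).trans ((le_max_right _ _).trans hx)
  have hx0 : 0 < x := by linarith
  set D : ℕ → ℝ := fun b => SA σ a q b ⌊x⌋₊ / x - Mn σ a x / q with hD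
  have hDnon : ∀ b ∈ range q, ¬ Nat.Coprime b q → |D b| ≤ ε' := by
    intro b hb hc
    have hWb : Wn b ≤ ∑ b ∈ range q, Wn b := single_le_sum (f := Wn) (fun _ _ => Nat.zero_le _) hb
    apply hXn b (mem_range.1 hb) hc S σ U (hσ.mono (by omega)) x _ a ha
    exact (le_abs_self _).trans ((single_le_sum (f := fun s => |Xn s|) (fun i _ => abs_nonneg _) hb).trans g3)
  have hDu : ∀ b ∈ range q, Nat.Coprime b q → |D b - D 1| ≤ ε' := by
    intro b hb hc
    set u : (ZMod q)ˣ := ZMod.unitOfCoprime b hc with hu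
    have h1 := hxu S σ U (hσ.mono (by omega)) x g2 u (cla a q b) (cla_B1 ha _ _)
    have h2 : uact u (cla a q b) = cla a q 1 := by
      funext l c
      unfold uact cla
      have h3 : ((u : ZMod q) * c = (b : ZMod q)) ↔ (c = ((1 : ℕ) : ZMod q)) := by
        rw [hu, ZMod.coe_unitOfCoprime, Nat.cast_one]
        constructor
        · intro h
          have hub : IsUnit ((b : ZMod q)) := ⟨u, by rw [hu, ZMod.coe_unitOfCoprime]⟩
          have : (b : ZMod q) * c = (b : ZMod q) * 1 := by rw [h, mul_one]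
          exact hub.mul_left_cancel this
        · intro h
          rw [h, mul_one]
      simp only [h3]
    rw [h2, ME_cla, ME_cla] at h1
    have h3 : D b - D 1 = SA σ a q b ⌊x⌋₊ / x - SA σ a q 1 ⌊x⌋₊ / x := by
      rw [hD]
      ring
    rw [h3]
    exact h1
  have hDsum : ∑ b ∈ range q, D b = 0 := by
    rw [hD]
    simp only
    rw [sum_sub_distrib, ← sum_div, SA_class_sum σ a q _ hq, sum_const, card_range, nsmul_eq_mul]
    unfold Mn
    field_simp
    ring
  have hD1 : |D 1| ≤ q * ε' := by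
    set φ : ℝ := ∑ b ∈ range q, if Nat.Coprime b q then (1 : ℝ) else 0 with hφ
    have hφ1 : 1 ≤ φ := by
      have h1 : (1 % q) ∈ range q := mem_range.2 (Nat.mod_lt _ hq)
      have h2 : (fun b : ℕ => if Nat.Coprime b q then (1 : ℝ) else 0) (1 % q) ≤ φ :=
        single_le_sum (f := fun b : ℕ => if Nat.Coprime b q then (1 : ℝ) else 0) (fun i _ => by positivity) h1
      refine le_trans (le_of_eq ?_) h2
      simp only
      rw [if_pos]
      rw [Nat.Coprime, ← Nat.gcd_rec, Nat.gcd_one_right]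
    have h1 : φ * D 1 = -∑ b ∈ range q, (D b - (if Nat.Coprime b q then (1 : ℝ) else 0) * D 1) := by
      rw [sum_sub_distrib, hDsum, ← sum_mul]
      ring
    have h2 : |φ * D 1| ≤ q * ε' := by
      rw [h1, abs_neg]
      refine (abs_sum_le_sum_abs _ _).trans ?_
      have h3 : ∑ b ∈ range q, |D b - (if Nat.Coprime b q then (1 : ℝ) else 0) * D 1| ≤ ∑ b ∈ range q, ε' := by
        apply sum_le_sum
        intro b hb
        by_cases hc : Nat.Coprime b q
        · rw [if_pos hc, one_mul]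
          exact hDu b hb hc
        · rw [if_neg hc, zero_mul, sub_zero]
          exact hDnon b hb hc
      refine h3.trans (le_of_eq ?_)
      rw [sum_const, card_range, nsmul_eq_mul]
    rw [abs_mul, abs_of_nonneg (by linarith)] at h2
    nlinarith [abs_nonneg (D 1)]
  have hqe : q * ε' = ε / 2 := by
    rw [hε']
    field_simp
  by_cases hc : Nat.Coprime b q
  · have h1 := hDu b (mem_range.2 hb) hc
    have h2 : D b = (D b - D 1) + D 1 := by ring
    change |D b| ≤ ε
    rw [h2]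
    refine (abs_add_le _ _).trans ?_
    linarith
  · refine (hDnon b (mem_range.2 hb) hc).trans ?_
    linarith

end Pool.Agent.J4.H12.ST
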