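import Pool.Agent.J4.H12.ST.C
import Pool.Agent.J4.H12.LO.Gn5

/-! Products of functions of the states at linear forms against functions invariant under
translations. -/

set_option autoImplicit false

namespace Pool.Agent.J4.H12.ST

open Finset Filter Topology
open Pool.Agent.W36.GU (win win_abs)
open Pool.Agent.W36.GK (dot box Indep)
open Pool.Agent.N675.M.G12 (Fam M1)
open Pool.Agent.J4.H12.LO (fam_forms)

/-- the balanced functions of the states, with `σ (p m) = U (σ m)` for the primes `p ≤ w` -/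
def Cl (w X : ℕ) : Set (ℤ → ℝ) :=
  {f | ∃ (S : Type) (σ : ℕ → S) (U : S → S) (A : S → ℝ), Sta σ U w ∧ B0 A ∧ f = bf σ A (Mn σ A X)}

lemma Cl_mono {w w' : ℕ} (h : w ≤ w') (X : ℕ) : Cl w' X ⊆ Cl w X := by
  rintro f ⟨S, σ, U, A, h1, h2, h3⟩
  exact ⟨S, σ, U, A, h1.mono h, h2, h3⟩

theorem fam_Cl {W : ℕ → ℕ} (hW : Tendsto W atTop atTop) : Fam (fun X => Cl (W X) X) 0 := by
  refine ⟨fun T => ?_, fun c hc C ε hε => ?_⟩
  · obtain ⟨X0, h0⟩ := eventually_atTop.1 (hW.eventually_ge_atTop T)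
    refine ⟨X0 + 1, ?_⟩
    rintro X hX f ⟨S, σ, U, A, hσ, hA, rfl⟩
    have hWT : T ≤ W X := h0 X (by omega)
    have hμ : |Mn σ A X| ≤ 1 := Mn_abs hA (by exact_mod_cast (by omega : 0 < X))
    refine ⟨bf_abs hA hμ, fun _ => 1, fun m => ((bf σ (fun l => A (U l)) (Mn σ A X) m : ℝ) : ℂ),
      fun m => ?_, fun p _ _ _ => by simp, fun p hp _ hpT m _ => ?_⟩
    · rw [Complex.norm_real]
      exact bf_abs (fun l => hA _) hμ m
    · rw [one_mul, bf_mul (hσ.mono hWT) A _ hp hpT]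
  · obtain ⟨X0, W0, -, h⟩ := single c hc C hε
    obtain ⟨X1, h1⟩ := eventually_atTop.1 (hW.eventually_ge_atTop W0)
    refine ⟨X0 + X1, ?_⟩
    rintro X hX x b h2 h3 h4 f ⟨S, σ, U, A, hσ, hA, rfl⟩
    exact h S σ U (hσ.mono (h1 X (by omega))) X (by omega) x b h2 h3 h4 A hA

/-- a slowly growing function adapted to a sequence -/
theorem slow (Xs : ℕ → ℕ) (hmono : StrictMono Xs) :
    ∃ W : ℕ → ℕ, Tendsto W atTop atTop ∧ ∀ n, W (Xs n) = n := by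
  have hid : ∀ n, n ≤ Xs n := hmono.id_le
  refine ⟨fun X => Nat.findGreatest (fun n => Xs n ≤ X) X, ?_, fun n => ?_⟩
  · rw [tendsto_atTop]
    intro n
    rw [eventually_atTop]
    exact ⟨Xs n, fun X hX => Nat.le_findGreatest ((hid n).trans hX) hX⟩
  · refine le_antisymm ?_ (Nat.le_findGreatest (hid n) le_rfl)
    have h1 : Xs (Nat.findGreatest (fun m => Xs m ≤ Xs n) (Xs n)) ≤ Xs n :=
      Nat.findGreatest_spec (P := fun m => Xs m ≤ Xs n) (hid n) le_rfl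
    exact hmono.le_iff_le.1 h1

/-- from all `W(X) → ∞` to a constant -/
theorem diag {P : ℕ → ℕ → Prop}
    (h : ∀ W : ℕ → ℕ, Tendsto W atTop atTop → ∃ X0, ∀ X, X0 ≤ X → P (W X) X) :
    ∃ w0 X0, ∀ X, X0 ≤ X → P w0 X := by
  by_contra hcon
  push Not at hcon
  choose E hE1 hE2 using hcon
  let Xs : ℕ → ℕ := fun n => Nat.rec (motive := fun _ => ℕ) (E 0 0) (fun n x => E (n + 1) (x + 1)) n
  have hs1 : ∀ n, Xs (n + 1) = E (n + 1) (Xs n + 1) := fun n => rfl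
  have hmono : StrictMono Xs := strictMono_nat_of_lt_succ fun n => by
    have := hE1 (n + 1) (Xs n + 1)
    rw [hs1]
    omega
  have hbad : ∀ n, ¬ P n (Xs n) := by
    intro n
    rcases n with _ | n
    · exact hE2 0 0
    · rw [hs1]; exact hE2 _ _
  obtain ⟨W, hW, hWeq⟩ := slow Xs hmono
  obtain ⟨X0, h0⟩ := h W hW
  have h1 := h0 (Xs X0) (hmono.id_le X0)
  rw [hWeq] at h1
  exact hbad X0 h1

theorem cl_forms {D r K : ℕ}
    (Λ : Fin r → Fin D → ℤ) (hΛ0 : ∀ i, Λ i ≠ 0) (hΛ : ∀ i j, i ≠ j → Indep (Λ i) (Λ j))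
    (v : Fin K → Fin D → ℤ) (hv : ∀ i l, dot (Λ i) (v l) ≠ 0) {ε : ℝ} (hε : 0 < ε) :
    ∃ w0 X0 : ℕ, ∀ X : ℕ, X0 ≤ X → ∀ F E : Fin r → ℤ → ℝ, (∀ i n, |F i n| ≤ 1) →
      (∀ i n, |E i n| ≤ 1) →
      (∀ i, ∃ f ∈ Cl w0 X, ∀ n, 0 < n → F i n - E i n = 2 * f n) →
      ∀ g : Fin K → (Fin D → ℤ) → ℝ, (∀ l y, |g l y| ≤ 1) → (∀ l y, g l (y + v l) = g l y) →
      ∀ (c : Fin r → ℤ) (M N : Fin r → ℕ), (∀ i, N i ≤ X) → ∀ P P' : Fin D → ℤ,
      (∀ j, P' j - P j ≤ X) →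
      |∑ y ∈ box P P', (∏ i, win (M i) (N i) (F i) (dot (Λ i) y + c i)
        - ∏ i, win (M i) (N i) (E i) (dot (Λ i) y + c i)) * ∏ l, g l y| ≤ ε * (X : ℝ) ^ D := by
  refine diag (P := fun w X => ∀ F E : Fin r → ℤ → ℝ, (∀ i n, |F i n| ≤ 1) →
      (∀ i n, |E i n| ≤ 1) →
      (∀ i, ∃ f ∈ Cl w X, ∀ n, 0 < n → F i n - E i n = 2 * f n) →
      ∀ g : Fin K → (Fin D → ℤ) → ℝ, (∀ l y, |g l y| ≤ 1) → (∀ l y, g l (y + v l) = g l y) →
      ∀ (c : Fin r → ℤ) (M N : Fin r → ℕ), (∀ i, N i ≤ X) → ∀ P P' : Fin D → ℤ,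
      (∀ j, P' j - P j ≤ X) →
      |∑ y ∈ box P P', (∏ i, win (M i) (N i) (F i) (dot (Λ i) y + c i)
        - ∏ i, win (M i) (N i) (E i) (dot (Λ i) y + c i)) * ∏ l, g l y| ≤ ε * (X : ℝ) ^ D) ?_
  intro W hW
  obtain ⟨X0, -, h⟩ := fam_forms (fam_Cl hW) Λ hΛ0 hΛ v hv hε
  exact ⟨X0, h⟩

/-- the function of the state -/
noncomputable def fS {S : Type} (σ : ℕ → S) (A : S → ℝ) (n : ℤ) : ℝ := A (σ n.toNat)

theorem state_forms {D r K : ℕ}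
    (Λ : Fin r → Fin D → ℤ) (hΛ0 : ∀ i, Λ i ≠ 0) (hΛ : ∀ i j, i ≠ j → Indep (Λ i) (Λ j))
    (v : Fin K → Fin D → ℤ) (hv : ∀ i l, dot (Λ i) (v l) ≠ 0) {ε : ℝ} (hε : 0 < ε) :
    ∃ w0 X0 : ℕ, 0 < X0 ∧ ∀ X : ℕ, X0 ≤ X → ∀ (S : Fin r → Type) (σ : ∀ i, ℕ → S i)
      (U : ∀ i, S i → S i), (∀ i, Sta (σ i) (U i) w0) → ∀ A : ∀ i, S i → ℝ, (∀ i, B0 (A i)) →
      ∀ g : Fin K → (Fin D → ℤ) → ℝ, (∀ l y, |g l y| ≤ 1) → (∀ l y, g l (y + v l) = g l y) →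
      ∀ (c : Fin r → ℤ) (M N : Fin r → ℕ), (∀ i, N i ≤ X) → ∀ P P' : Fin D → ℤ,
      (∀ j, P' j - P j ≤ X) →
      |∑ y ∈ (box P P').filter (fun y => ∀ i, (M i : ℤ) < dot (Λ i) y + c i ∧
          dot (Λ i) y + c i ≤ N i),
        (∏ i, A i (σ i (dot (Λ i) y + c i).toNat) - ∏ i, Mn (σ i) (A i) X) * ∏ l, g l y|
        ≤ ε * (X : ℝ) ^ D := by
  classical
  obtain ⟨w0, X0, h⟩ := cl_forms Λ hΛ0 hΛ v hv hε
  refine ⟨w0, X0 + 1, by omega, fun X hX S σ U hσ A hA g hg hgi c M N hN P P' hP => ?_⟩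
  have hXR : (0 : ℝ) < X := by exact_mod_cast (by omega : 0 < X)
  have h2 := h X (by omega) (fun i => fS (σ i) (A i)) (fun i _ => Mn (σ i) (A i) X)
    (fun i n => hA i _) (fun i n => Mn_abs (hA i) hXR) (fun i => ⟨bf (σ i) (A i) (Mn (σ i) (A i) X),
      ⟨S i, σ i, U i, A i, hσ i, hA i, rfl⟩, fun n hn => by
        unfold bf fS
        rw [if_pos hn]
        ring⟩) g hg hgi c M N hN P P' hP
  refine le_trans (le_of_eq ?_) h2
  congr 1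
  rw [sum_filter]
  refine sum_congr rfl fun y _ => ?_
  split_ifs with hy
  · congr 1
    congr 1
    · refine prod_congr rfl fun i _ => ?_
      unfold win
      rw [if_pos (hy i)]
      rfl
    · refine prod_congr rfl fun i _ => ?_
      unfold win
      rw [if_pos (hy i)]
  · push Not at hy
    obtain ⟨i, hi⟩ := hy
    have h3 : ¬ ((M i : ℤ) < dot (Λ i) y + c i ∧ dot (Λ i) y + c i ≤ N i) := fun h => by
      have := hi h.1
      omega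
    rw [prod_eq_zero (mem_univ i), prod_eq_zero (mem_univ i), sub_zero, zero_mul]
    · unfold win
      rw [if_neg h3]
    · unfold win
      rw [if_neg h3]

end Pool.Agent.J4.H12.ST
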