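import Pool.Agent.J4.H12.ST.D

/-! The number of prime factors and the rough part at linear forms. -/

set_option autoImplicit false

namespace Pool.Agent.J4.H12.ST

open Finset
open Pool.Agent.W36.GK (dot box mem_box Indep)

/-- the part of `n` composed of the primes larger than `w` -/
def rough (w n : ℕ) : ℕ := (n.primeFactorsList.filter fun p => w < p).prod

/-- the mean over `1 ≤ n ≤ X` of `A (Ω(n), n_{> w})` -/
noncomputable def mean (A : ℕ → ℕ → ℝ) (w X : ℕ) : ℝ :=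
  (∑ n ∈ Icc 1 X, A (ArithmeticFunction.cardFactors n) (rough w n)) / X

/-- the state -/
def so (w n : ℕ) : ℕ × ℕ := (ArithmeticFunction.cardFactors n, rough w n)

lemma rough_mul (w : ℕ) {p : ℕ} (hp : p.Prime) (hpw : p ≤ w) {m : ℕ} (hm : 0 < m) :
    rough w (p * m) = rough w m := by
  unfold rough
  have h1 := Nat.perm_primeFactorsList_mul hp.ne_zero hm.ne'
  rw [Nat.primeFactorsList_prime hp] at h1
  rw [(h1.filter _).prod_eq, List.singleton_append, List.filter_cons_of_neg]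
  simp only [decide_eq_true_eq]
  omega

lemma sta_so (w : ℕ) : Sta (so w) (fun l => (l.1 + 1, l.2)) w := by
  intro p hp hpw m hm
  unfold so
  rw [rough_mul w hp hpw hm, ArithmeticFunction.cardFactors_mul hp.ne_zero hm.ne',
    ArithmeticFunction.cardFactors_apply_prime hp, add_comm 1]

lemma Mn_mean (A : ℕ → ℕ → ℝ) (w X : ℕ) : Mn (so w) (fun l => A l.1 l.2) X = mean A w X := by
  unfold Mn SA mean so
  simp only [Nat.mod_one, if_true, Nat.floor_natCast]

/-- **Systems of linear forms.** -/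
theorem forms {D r K : ℕ}
    (Λ : Fin r → Fin D → ℤ) (hΛ0 : ∀ i, Λ i ≠ 0) (hΛ : ∀ i j, i ≠ j → Indep (Λ i) (Λ j))
    (v : Fin K → Fin D → ℤ) (hv : ∀ i l, dot (Λ i) (v l) ≠ 0) {ε : ℝ} (hε : 0 < ε) :
    ∃ w0 X0 : ℕ, 0 < X0 ∧ ∀ X : ℕ, X0 ≤ X → ∀ w : ℕ, w0 ≤ w →
      ∀ A : Fin r → ℕ → ℕ → ℝ, (∀ i l m, |A i l m| ≤ 1) →
      ∀ g : Fin K → (Fin D → ℤ) → ℝ, (∀ l y, |g l y| ≤ 1) → (∀ l y, g l (y + v l) = g l y) →
      ∀ (c : Fin r → ℤ) (M N : Fin r → ℕ), (∀ i, N i ≤ X) → ∀ P P' : Fin D → ℤ,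
      (∀ j, P' j - P j ≤ X) →
      |∑ y ∈ (box P P').filter (fun y => ∀ i, (M i : ℤ) < dot (Λ i) y + c i ∧
          dot (Λ i) y + c i ≤ N i),
        (∏ i, A i (ArithmeticFunction.cardFactors (dot (Λ i) y + c i).toNat)
          (rough w (dot (Λ i) y + c i).toNat) - ∏ i, mean (A i) w X) * ∏ l, g l y|
        ≤ ε * (X : ℝ) ^ D := by
  obtain ⟨w0, X0, hX0, h⟩ := state_forms Λ hΛ0 hΛ v hv hε
  refine ⟨w0, X0, hX0, fun X hX w hw A hA g hg hgi c M N hN P P' hP => ?_⟩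
  have h2 := h X hX (fun _ => ℕ × ℕ) (fun _ => so w) (fun _ l => (l.1 + 1, l.2))
    (fun _ => (sta_so w).mono hw)
    (fun i l => A i l.1 l.2) (fun i l => hA i _ _) g hg hgi c M N hN P P' hP
  simp only [Mn_mean] at h2
  exact h2

lemma sum_box_cons {D : ℕ} (p p' : ℤ) (P P' : Fin D → ℤ) (f : (Fin (D + 1) → ℤ) → ℝ) :
    ∑ x ∈ box (Fin.cons p P : Fin (D + 1) → ℤ) (Fin.cons p' P'), f x
      = ∑ y ∈ box P P', ∑ n ∈ Ioc p p', f (Fin.cons n y) := by
  rw [sum_comm, ← sum_product']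
  symm
  apply sum_nbij' (fun q : ℤ × (Fin D → ℤ) => (Fin.cons q.1 q.2 : Fin (D + 1) → ℤ))
    (fun h => (h 0, Fin.tail h))
  · rintro ⟨t, h⟩ hq
    rw [mem_product, mem_box, mem_Ioc] at hq
    rw [mem_box]
    intro k
    refine Fin.cases ?_ (fun k => ?_) k
    · simp only [Fin.cons_zero]; exact hq.1
    · simp only [Fin.cons_succ]; exact hq.2 k
  · intro h hh
    rw [mem_box] at hh
    rw [mem_product, mem_box, mem_Ioc]
    refine ⟨by simpa using hh 0, fun k => by simpa [Fin.tail] using hh k.succ⟩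
  · rintro ⟨t, h⟩ _; simp [Fin.tail_cons]
  · intro h _; exact Fin.cons_self_tail h
  · rintro ⟨t, h⟩ _; rfl

lemma dot_cons {D : ℕ} (a : ℤ) (L : Fin D → ℤ) (n : ℤ) (y : Fin D → ℤ) :
    dot (Fin.cons a L : Fin (D + 1) → ℤ) (Fin.cons n y) = a * n + dot L y := by
  unfold dot
  rw [Fin.sum_univ_succ]
  simp only [Fin.cons_zero, Fin.cons_succ]

/-- **Almost all parameters.** -/
theorem params {D r : ℕ} (a : Fin r → ℤ) (L : Fin r → Fin D → ℤ) (ha : ∀ i, a i ≠ 0)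
    (hL : ∀ i j, i ≠ j → a i • L j ≠ a j • L i) {ε : ℝ} (hε : 0 < ε) :
    ∃ w0 X0 : ℕ, 0 < X0 ∧ ∀ X : ℕ, X0 ≤ X → ∀ w : ℕ, w0 ≤ w →
      ∀ A : Fin r → ℕ → ℕ → ℝ, (∀ i l m, |A i l m| ≤ 1) →
      ∀ (c : Fin r → ℤ) (M N : Fin r → ℕ), (∀ i, N i ≤ X) → ∀ (p p' : ℤ), p' - p ≤ X →
      ∀ P P' : Fin D → ℤ, (∀ j, P' j - P j ≤ X) →
      ∑ y ∈ box P P', |∑ n ∈ (Ioc p p').filter (fun n => ∀ i, (M i : ℤ) < a i * n + dot (L i) y + c i ∧
          a i * n + dot (L i) y + c i ≤ N i),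
        (∏ i, A i (ArithmeticFunction.cardFactors (a i * n + dot (L i) y + c i).toNat)
          (rough w (a i * n + dot (L i) y + c i).toNat) - ∏ i, mean (A i) w X)|
        ≤ ε * (X : ℝ) ^ (D + 1) := by
  classical
  set Λ : Fin r → Fin (D + 1) → ℤ := fun i => Fin.cons (a i) (L i) with hΛ
  have hΛ0 : ∀ i, Λ i ≠ 0 := by
    intro i h
    have := congrFun h 0
    rw [hΛ] at this
    simp only [Fin.cons_zero, Pi.zero_apply] at this
    exact ha i this
  have hΛI : ∀ i j, i ≠ j → Indep (Λ i) (Λ j) := by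
    intro i j hij s t hst
    have h0 : s * a i = t * a j := by
      have := congrFun hst 0
      simpa [hΛ] using this
    have h1 : ∀ k, s * L i k = t * L j k := by
      intro k
      have := congrFun hst k.succ
      simpa [hΛ] using this
    by_contra hcon
    have hs0 : s ≠ 0 := by
      intro hs
      apply hcon
      refine ⟨hs, ?_⟩
      rw [hs, zero_mul] at h0
      rcases mul_eq_zero.1 h0.symm with h | h
      · exact h
      · exact absurd h (ha j)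
    apply hL i j hij
    funext k
    simp only [Pi.smul_apply, smul_eq_mul]
    have e1 : s * (a i * L j k) = s * (a j * L i k) := by
      calc s * (a i * L j k) = (s * a i) * L j k := by ring
        _ = (t * a j) * L j k := by rw [h0]
        _ = a j * (t * L j k) := by ring
        _ = a j * (s * L i k) := by rw [h1]
        _ = _ := by ring
    exact mul_left_cancel₀ hs0 e1
  obtain ⟨w0, X0, hX0, h⟩ := forms (K := 1) Λ hΛ0 hΛI (fun _ => Fin.cons 1 0) (by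
    intro i _
    rw [hΛ]
    simp only
    rw [dot_cons]
    have : dot (L i) (0 : Fin D → ℤ) = 0 := by unfold dot; simp
    rw [this]
    simpa using ha i) hε
  refine ⟨w0, X0, hX0, fun X hX w hw A hA c M N hN p p' hp P P' hP => ?_⟩
  set T : (Fin D → ℤ) → ℝ := fun y => ∑ n ∈ (Ioc p p').filter (fun n => ∀ i,
      (M i : ℤ) < a i * n + dot (L i) y + c i ∧ a i * n + dot (L i) y + c i ≤ N i),
        (∏ i, A i (ArithmeticFunction.cardFactors (a i * n + dot (L i) y + c i).toNat)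
          (rough w (a i * n + dot (L i) y + c i).toNat) - ∏ i, mean (A i) w X) with hT
  set sg : ℝ → ℝ := fun t => if 0 ≤ t then 1 else -1 with hsg
  have hsg1 : ∀ t, |sg t| ≤ 1 := by
    intro t
    simp only [hsg]
    split_ifs <;> simp
  have hsg2 : ∀ t, t * sg t = |t| := by
    intro t
    simp only [hsg]
    split_ifs with h0
    · rw [mul_one, abs_of_nonneg h0]
    · rw [abs_of_neg (not_le.1 h0)]; ring
  have h2 := h X hX w hw A hA (fun _ x => sg (T (Fin.tail x))) (fun _ _ => hsg1 _) (by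
    intro _ y
    congr 2
    funext k
    simp [Fin.tail]) c M N hN (Fin.cons p P) (Fin.cons p' P') (by
    intro j
    refine Fin.cases ?_ (fun j => ?_) j
    · simpa using hp
    · simpa using hP j)
  refine le_trans (le_of_eq ?_) ((le_abs_self _).trans h2)
  rw [sum_filter, sum_box_cons]
  refine sum_congr rfl fun y _ => ?_
  obtain ⟨s0, hs0⟩ : ∃ s0, s0 = sg (T y) := ⟨_, rfl⟩
  have e1 : |T y| = T y * s0 := by rw [hs0]; exact (hsg2 _).symm
  have e2 : T y * s0 = ∑ n ∈ Ioc p p', (if ∀ i,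
      (M i : ℤ) < a i * n + dot (L i) y + c i ∧ a i * n + dot (L i) y + c i ≤ N i then
        (∏ i, A i (ArithmeticFunction.cardFactors (a i * n + dot (L i) y + c i).toNat)
          (rough w (a i * n + dot (L i) y + c i).toNat) - ∏ i, mean (A i) w X) * s0 else 0) := by
    simp only [hT]
    rw [sum_filter, sum_mul]
    refine sum_congr rfl fun n _ => ?_
    split_ifs
    · rfl
    · rw [zero_mul]
  show |T y| = _
  rw [e1, e2]
  refine sum_congr rfl fun n _ => ?_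
  simp only [hΛ, dot_cons, Fin.tail_cons, prod_const, card_univ, Fintype.card_fin, pow_one, ← hs0]

lemma mean_abs {A : ℕ → ℕ → ℝ} (hA : ∀ l m, |A l m| ≤ 1) {w X : ℕ} (hX : 0 < X) :
    |mean A w X| ≤ 1 := by
  rw [← Mn_mean]
  exact Mn_abs (fun l => hA _ _) (by exact_mod_cast hX)

/-- the means do not depend on the scale -/
lemma mean_scale (C : ℕ) (hC : 0 < C) {ε : ℝ} (hε : 0 < ε) :
    ∃ w0 X0 : ℕ, ∀ X : ℕ, X0 ≤ X → ∀ w : ℕ, w0 ≤ w → ∀ A : ℕ → ℕ → ℝ, (∀ l m, |A l m| ≤ 1) →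
      |mean A w (C * X) - mean A w X| ≤ ε := by
  have hCR : (0 : ℝ) < C := by exact_mod_cast hC
  obtain ⟨x₀, W, h⟩ := Mn_scale (δ := 1 / C) (by positivity) hε
  refine ⟨W, ⌈x₀⌉₊, fun X hX w hw A hA => ?_⟩
  have h1 : x₀ ≤ X := (Nat.le_ceil _).trans (by exact_mod_cast hX)
  have h2 : (X : ℝ) ≤ ((C * X : ℕ) : ℝ) := by exact_mod_cast Nat.le_mul_of_pos_left X hC
  have h3 := h (ℕ × ℕ) (so w) (fun l => (l.1 + 1, l.2)) ((sta_so w).mono hw) ((C * X : ℕ) : ℝ)
    (h1.trans h2) X (le_of_eq (by push_cast; field_simp)) h2 (fun l => A l.1 l.2) (fun l => hA _ _)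
  rw [Mn_mean, Mn_mean] at h3
  exact h3

lemma sum_box_one (p p' : ℤ) (f : (Fin 1 → ℤ) → ℝ) :
    ∑ y ∈ box (fun _ : Fin 1 => p) (fun _ => p'), f y = ∑ d ∈ Ioc p p', f fun _ => d := by
  symm
  refine sum_nbij' (fun d _ => d) (fun y => y 0) ?_ ?_ ?_ ?_ ?_
  · intro d hd
    rw [mem_box]
    exact fun _ => mem_Ioc.1 hd
  · intro y hy
    rw [mem_box] at hy
    exact mem_Ioc.2 (hy 0)
  · intro d _; rfl
  · intro y _
    funext j
    rw [Fin.fin_one_eq_zero j]
  · intro d _; rfl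

/-- **Arithmetic progressions with almost all differences.** -/
theorem progressions (k : ℕ) {ε : ℝ} (hε : 0 < ε) :
    ∃ w0 X0 : ℕ, ∀ X : ℕ, X0 ≤ X → ∀ w : ℕ, w0 ≤ w →
      ∀ A : Fin k → ℕ → ℕ → ℝ, (∀ i l m, |A i l m| ≤ 1) →
      ∑ d ∈ Icc 1 X, |∑ n ∈ Icc 1 X, ∏ i : Fin k, A i (ArithmeticFunction.cardFactors (n + i * d))
        (rough w (n + i * d)) - X * ∏ i, mean (A i) w X| ≤ ε * (X : ℝ) ^ 2 := by
  classical
  obtain ⟨w1, X1, hX1, h1⟩ := params (D := 1) (r := k) (fun _ => 1) (fun i _ => (i : ℤ))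
    (fun _ => one_ne_zero) (by
      intro i j hij h
      have := congrFun h 0
      simp only [one_smul] at this
      apply hij
      ext
      exact_mod_cast this.symm) (ε := ε / (2 * ((k : ℝ) + 1) ^ 2)) (by positivity)
  obtain ⟨w2, X2, h2⟩ := mean_scale (k + 1) (by omega) (ε := ε / (2 * (k + 1))) (by positivity)
  refine ⟨w1 + w2, X1 + X2, fun X hX w hw A hA => ?_⟩
  have hX0 : 0 < X := by omega
  have hXR : (0 : ℝ) < X := by exact_mod_cast hX0
  have hXX : X ≤ (k + 1) * X := Nat.le_mul_of_pos_left _ (by omega)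
  have h3 := h1 ((k + 1) * X) (by omega) w (by omega) A hA (fun _ => 0) (fun _ => 0)
    (fun _ => (k + 1) * X) (fun _ => le_rfl) 0 X (by rw [sub_zero]; exact_mod_cast hXX)
    (fun _ => 0) (fun _ => (X : ℤ)) (fun _ => by rw [sub_zero]; exact_mod_cast hXX)
  rw [sum_box_one] at h3
  have hdotc : ∀ (i : Fin k) (d : ℤ), dot (fun _ : Fin 1 => (i : ℤ)) (fun _ => d) = i * d := by
    intro i d
    unfold dot
    simp
  -- the condition is void
  have hfil : ∀ d ∈ Ioc (0 : ℤ) X, (Ioc (0 : ℤ) X).filter (fun n => ∀ i : Fin k,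
      ((0 : ℕ) : ℤ) < 1 * n + dot (fun _ : Fin 1 => (i : ℤ)) (fun _ => d) + 0 ∧
      1 * n + dot (fun _ : Fin 1 => (i : ℤ)) (fun _ => d) + 0 ≤ ((k + 1) * X : ℕ)) = Ioc 0 (X : ℤ) := by
    intro d hd
    rw [mem_Ioc] at hd
    apply filter_true_of_mem
    intro n hn i
    rw [mem_Ioc] at hn
    rw [hdotc]
    have e1 : (0 : ℤ) ≤ (i : ℤ) * d := mul_nonneg (by positivity) (by linarith)
    have e2 : (i : ℤ) * d ≤ k * X := by
      have : ((i : ℕ) : ℤ) ≤ k := by exact_mod_cast i.2.le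
      exact mul_le_mul this hd.2 (by linarith) (by positivity)
    push_cast
    constructor
    · linarith [hn.1]
    · linarith [hn.2]
  have hconv : ∀ f : ℤ → ℝ, ∑ n ∈ Ioc (0 : ℤ) X, f n = ∑ n ∈ Icc 1 X, f (n : ℤ) := by
    intro f
    symm
    refine sum_nbij' (fun n => (n : ℤ)) (fun n => n.toNat) ?_ ?_ ?_ ?_ ?_
    · intro n hn; rw [mem_Icc] at hn; rw [mem_Ioc]; omega
    · intro n hn; rw [mem_Ioc] at hn; rw [mem_Icc]; omega
    · intro n _; simp
    · intro n hn; rw [mem_Ioc] at hn; exact Int.toNat_of_nonneg hn.1.le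
    · intro n _; rfl
  rw [hconv] at h3
  -- compare
  set μ' : ℝ := ∏ i, mean (A i) w ((k + 1) * X) with hμ'
  set μ : ℝ := ∏ i, mean (A i) w X with hμ
  have hμμ : |μ' - μ| ≤ ε / 2 := by
    have e1 := Pool.Agent.N675.M.G12.abs_prod_sub_le (fun i => mean (A i) w ((k + 1) * X))
      (fun i => mean (A i) w X) (fun i => mean_abs (hA i) (by omega)) (fun i => mean_abs (hA i) hX0)
    have e2 : ∑ i, |mean (A i) w ((k + 1) * X) - mean (A i) w X| ≤ ∑ _i : Fin k, ε / (2 * (k + 1)) :=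
      sum_le_sum fun i _ => h2 X (by omega) w (by omega) (A i) (hA i)
    rw [sum_const, card_univ, Fintype.card_fin, nsmul_eq_mul] at e2
    refine e1.trans (e2.trans ?_)
    rw [mul_div_assoc', div_le_div_iff₀ (by positivity) (by positivity)]
    nlinarith
  have hterm : ∀ d ∈ Icc 1 X, |∑ n ∈ Icc 1 X, ∏ i : Fin k,
      A i (ArithmeticFunction.cardFactors (n + i * d)) (rough w (n + i * d)) - X * μ|
      ≤ |∑ n ∈ (Ioc (0 : ℤ) X).filter (fun n => ∀ i : Fin k,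
      ((0 : ℕ) : ℤ) < 1 * n + dot (fun _ : Fin 1 => (i : ℤ)) (fun _ => ((d : ℕ) : ℤ)) + 0 ∧
      1 * n + dot (fun _ : Fin 1 => (i : ℤ)) (fun _ => ((d : ℕ) : ℤ)) + 0 ≤ ((k + 1) * X : ℕ)),
        (∏ i, A i (ArithmeticFunction.cardFactors
          (1 * n + dot (fun _ : Fin 1 => (i : ℤ)) (fun _ => ((d : ℕ) : ℤ)) + 0).toNat)
          (rough w (1 * n + dot (fun _ : Fin 1 => (i : ℤ)) (fun _ => ((d : ℕ) : ℤ)) + 0).toNat) - μ')|
        + ε / 2 * X := by
    intro d hd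
    rw [mem_Icc] at hd
    rw [hfil d (by rw [mem_Ioc]; omega), hconv, sum_sub_distrib, sum_const, Nat.card_Icc,
      Nat.add_sub_cancel, nsmul_eq_mul]
    have e1 : ∀ n : ℕ, ∏ i, A i (ArithmeticFunction.cardFactors
          (1 * (n : ℤ) + dot (fun _ : Fin 1 => (i : ℤ)) (fun _ => ((d : ℕ) : ℤ)) + 0).toNat)
          (rough w (1 * (n : ℤ) + dot (fun _ : Fin 1 => (i : ℤ)) (fun _ => ((d : ℕ) : ℤ)) + 0).toNat)
          = ∏ i : Fin k, A i (ArithmeticFunction.cardFactors (n + i * d)) (rough w (n + i * d)) := by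
      intro n
      refine prod_congr rfl fun i _ => ?_
      have e2 : (1 * (n : ℤ) + dot (fun _ : Fin 1 => (i : ℤ)) (fun _ => ((d : ℕ) : ℤ)) + 0).toNat
          = n + i * d := by
        rw [hdotc]
        have : (1 * (n : ℤ) + (i : ℤ) * (d : ℤ) + 0) = ((n + i * d : ℕ) : ℤ) := by push_cast; ring
        rw [this, Int.toNat_natCast]
      rw [e2]
    simp only [e1]
    set S := ∑ n ∈ Icc 1 X, ∏ i : Fin k, A i (ArithmeticFunction.cardFactors (n + i * d))
      (rough w (n + i * d))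
    have e3 : S - X * μ = (S - X * μ') + X * (μ' - μ) := by ring
    rw [e3]
    refine (abs_add_le _ _).trans (add_le_add le_rfl ?_)
    rw [abs_mul, abs_of_pos hXR, mul_comm]
    exact mul_le_mul_of_nonneg_right hμμ hXR.le
  refine (sum_le_sum hterm).trans ?_
  rw [sum_add_distrib, sum_const, Nat.card_Icc, Nat.add_sub_cancel, nsmul_eq_mul]
  have h4 : ε / (2 * ((k : ℝ) + 1) ^ 2) * (((k + 1) * X : ℕ) : ℝ) ^ (1 + 1) = ε / 2 * (X : ℝ) ^ 2 := by
    push_cast
    field_simp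
  rw [h4] at h3
  have h5 : (X : ℝ) * (ε / 2 * X) = ε / 2 * (X : ℝ) ^ 2 := by ring
  rw [h5]
  have h6 : ε * (X : ℝ) ^ 2 = ε / 2 * (X : ℝ) ^ 2 + ε / 2 * (X : ℝ) ^ 2 := by ring
  rw [h6]
  exact add_le_add h3 le_rfl

end Pool.Agent.J4.H12.ST
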