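import Pool.Agent.J4.H12.ST.E
import Pool.Agent.J4.H12.IE.Varn

/-! The number of prime factors and the rough part of the common differences of configurations in
arbitrary sets. -/

set_option autoImplicit false

namespace Pool.Agent.J4.H12.ST

open Finset
open Pool.Agent.W36.GK (dot box mem_box Indep)
open Pool.Agent.J4.H12.IE (cube mem_cube card_cube many)

/-- the number of the translates: `u` with `u + d F_b ∈ E_b` for all `b` -/
noncomputable def cf {e q : ℕ} (F : Fin (q + 1) → Fin e → ℤ) (E : Fin (q + 1) → Finset (Fin e → ℤ))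
    (d : ℤ) : ℕ := {u : Fin e → ℤ | ∀ b, u + d • F b ∈ E b}.ncard

lemma cf_fin {e q : ℕ} (F : Fin (q + 1) → Fin e → ℤ) (E : Fin (q + 1) → Finset (Fin e → ℤ))
    (d : ℤ) : {u : Fin e → ℤ | ∀ b, u + d • F b ∈ E b}.Finite := by
  refine Set.Finite.subset ((E 0).finite_toSet.image fun z => z - d • F 0) fun u hu => ?_
  exact ⟨u + d • F 0, hu 0, by simp⟩

lemma cf_le {e q : ℕ} (F : Fin (q + 1) → Fin e → ℤ) (E : Fin (q + 1) → Finset (Fin e → ℤ))
    (d : ℤ) : cf F E d ≤ (E 0).card := by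
  unfold cf
  rw [← Set.ncard_coe_finset]
  refine Set.ncard_le_ncard_of_injOn (fun u => u + d • F 0) (fun u hu => hu 0)
    (fun u _ u' _ h => add_right_cancel h) (E 0).finite_toSet

lemma cf_box {e q : ℕ} (F : Fin (q + 1) → Fin e → ℤ) {C : ℕ} (hC : ∀ j, |F 0 j| ≤ C) {X : ℕ}
    {E : Fin (q + 1) → Finset (Fin e → ℤ)} (hE : ∀ b, E b ⊆ cube e 0 X) {d : ℤ} (hd1 : 1 ≤ d)
    (hd2 : d ≤ X) [∀ u : Fin e → ℤ, Decidable (∀ b, u + d • F b ∈ E b)] :
    (cf F E d : ℝ) = ∑ u ∈ box (fun _ => -(((C + 1) * X : ℕ) : ℤ)) (fun _ => (((C + 1) * X : ℕ) : ℤ)),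
      if ∀ b, u + d • F b ∈ E b then (1 : ℝ) else 0 := by
  have e1 : {u : Fin e → ℤ | ∀ b, u + d • F b ∈ E b}
      = (((box (fun _ => -(((C + 1) * X : ℕ) : ℤ)) (fun _ => (((C + 1) * X : ℕ) : ℤ))).filter
        (fun u => ∀ b, u + d • F b ∈ E b) : Finset (Fin e → ℤ)) : Set (Fin e → ℤ)) := by
    ext u
    rw [mem_coe, mem_filter, mem_box]
    constructor
    · intro hu
      refine ⟨fun j => ?_, hu⟩
      have h1 := mem_cube.1 (hE 0 (hu 0)) j
      rw [Pi.add_apply, Pi.smul_apply, smul_eq_mul] at h1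
      have h2 : |d * F 0 j| ≤ X * C := by
        rw [abs_mul, abs_of_nonneg (by linarith : (0 : ℤ) ≤ d)]
        exact mul_le_mul hd2 (hC j) (abs_nonneg _) (by positivity)
      have h3 := abs_le.1 h2
      push_cast
      have hX0 : (1 : ℤ) ≤ X := hd1.trans hd2
      constructor
      · nlinarith [h1.1, h3.2]
      · nlinarith [h1.2, h3.1]
    · intro hu
      exact hu.2
  unfold cf
  rw [e1, Set.ncard_coe_finset, card_filter]
  push_cast
  rfl

/-- **Common differences.** -/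
theorem diffs {e q : ℕ} (F : Fin (q + 1) → Fin e → ℤ) {ε : ℝ} (hε : 0 < ε) :
    ∃ w0 X0 : ℕ, 0 < X0 ∧ ∀ X : ℕ, X0 ≤ X → ∀ w : ℕ, w0 ≤ w → ∀ A : ℕ → ℕ → ℝ,
      (∀ l m, |A l m| ≤ 1) → ∀ E : Fin (q + 1) → Finset (Fin e → ℤ), (∀ b, E b ⊆ cube e 0 X) →
      |∑ d ∈ Icc 1 X, (A (ArithmeticFunction.cardFactors d) (rough w d) - mean A w X) *
        (cf F E d : ℝ)| ≤ ε * (X : ℝ) ^ (e + 1) := by
  classical
  obtain ⟨C, hC⟩ : ∃ C : ℕ, C = ∑ j, (F 0 j).natAbs := ⟨_, rfl⟩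
  have hFC : ∀ j, |F 0 j| ≤ C := by
    intro j
    rw [Int.abs_eq_natAbs, hC]
    exact_mod_cast single_le_sum (f := fun j => (F 0 j).natAbs) (fun _ _ => Nat.zero_le _)
      (mem_univ j)
  obtain ⟨V, hV⟩ : ∃ V : ℕ, V = 2 * (C + 1) := ⟨_, rfl⟩
  have hV1 : 1 ≤ V := by omega
  have hVR : (1 : ℝ) ≤ V := by exact_mod_cast hV1
  set Λ : Fin (e + 1) → ℤ := Pi.single 0 1 with hΛ
  have hdot : ∀ w : Fin (e + 1) → ℤ, dot Λ w = w 0 := by
    intro w
    unfold dot
    rw [sum_eq_single 0]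
    · rw [hΛ, Pi.single_eq_same, one_mul]
    · intro j _ hj
      rw [hΛ, Pi.single_eq_of_ne hj, zero_mul]
    · intro h; exact absurd (mem_univ _) h
  have hΛ0 : Λ ≠ 0 := by
    intro h
    have := congrFun h 0
    rw [hΛ, Pi.single_eq_same] at this
    exact one_ne_zero this
  set v : Fin (q + 1) → Fin (e + 1) → ℤ := fun b => Fin.cons 1 (-F b) with hv
  obtain ⟨w1, X1, hX1, h1⟩ := forms (r := 1) (fun _ => Λ) (fun _ => hΛ0)
    (fun i j hij => absurd (Subsingleton.elim i j) hij) v (by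
      intro _ b
      rw [hdot, hv]
      simp) (ε := ε / (2 * (V : ℝ) ^ (e + 1))) (by positivity)
  obtain ⟨w2, X2, h2⟩ := mean_scale V (by omega) (ε := ε / 2) (by positivity)
  refine ⟨w1 + w2, X1 + X2 + 1, by omega, fun X hX w hw A hA E hE => ?_⟩
  have hX0 : 0 < X := by omega
  have hXR : (0 : ℝ) < X := by exact_mod_cast hX0
  have hXV : X ≤ V * X := Nat.le_mul_of_pos_left _ (by omega)
  set R : ℤ := (((C + 1) * X : ℕ) : ℤ) with hR
  have h3 := h1 (V * X) (by omega) w (by omega) (fun _ => A) (fun _ => hA)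
    (fun b x => if Fin.tail x + x 0 • F b ∈ E b then 1 else 0) (by
      intro b x
      split_ifs <;> simp) (by
      intro b x
      have e1 : Fin.tail (x + v b) + (x + v b) 0 • F b = Fin.tail x + x 0 • F b := by
        funext j
        simp only [Fin.tail, Pi.add_apply, Pi.smul_apply, smul_eq_mul, hv, Fin.cons_succ,
          Fin.cons_zero, Pi.neg_apply]
        ring
      rw [e1]) (fun _ => 0) (fun _ => 0) (fun _ => X) (fun _ => hXV)
    (Fin.cons 0 fun _ => -R) (Fin.cons (X : ℤ) fun _ => R) (by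
      intro j
      refine Fin.cases ?_ (fun j => ?_) j
      · rw [Fin.cons_zero, Fin.cons_zero, sub_zero]
        exact_mod_cast hXV
      · rw [Fin.cons_succ, Fin.cons_succ, hR, hV]
        push_cast
        linarith)
  rw [sum_filter, sum_box_cons, sum_comm] at h3
  have h4 : ∀ d ∈ Ioc (0 : ℤ) X, ∑ u ∈ box (fun _ : Fin e => -R) (fun _ => R),
      (if ∀ i : Fin 1, (((fun _ => 0) i : ℕ) : ℤ) < dot Λ (Fin.cons d u : Fin (e + 1) → ℤ) + 0 ∧
          dot Λ (Fin.cons d u : Fin (e + 1) → ℤ) + 0 ≤ (((fun _ => X) i : ℕ) : ℤ) then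
        (∏ i : Fin 1, A (ArithmeticFunction.cardFactors
            (dot Λ (Fin.cons d u : Fin (e + 1) → ℤ) + 0).toNat)
          (rough w (dot Λ (Fin.cons d u : Fin (e + 1) → ℤ) + 0).toNat)
            - ∏ _i : Fin 1, mean A w (V * X)) *
          ∏ b, (if Fin.tail (Fin.cons d u : Fin (e + 1) → ℤ) + (Fin.cons d u : Fin (e + 1) → ℤ) 0 • F b
            ∈ E b then (1 : ℝ) else 0) else 0)
      = (A (ArithmeticFunction.cardFactors d.toNat) (rough w d.toNat) - mean A w (V * X)) *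
        (cf F E d : ℝ) := by
    intro d hd
    rw [mem_Ioc] at hd
    rw [cf_box F hFC hE (by omega) hd.2, mul_sum]
    refine sum_congr rfl fun u _ => ?_
    rw [if_pos (by
      intro _
      rw [hdot, Fin.cons_zero, add_zero]
      exact ⟨by simpa using hd.1, hd.2⟩)]
    rw [hdot, Fin.cons_zero, add_zero, Fin.tail_cons]
    simp only [prod_const, card_univ, Fintype.card_fin, pow_one]
    congr 1
    by_cases h : ∀ b, u + d • F b ∈ E b
    · rw [if_pos h]
      exact prod_eq_one fun b _ => if_pos (h b)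
    · rw [if_neg h]
      push Not at h
      obtain ⟨b, hb⟩ := h
      exact prod_eq_zero (mem_univ b) (if_neg hb)
  have h5 : |∑ d ∈ Ioc (0 : ℤ) X, (A (ArithmeticFunction.cardFactors d.toNat) (rough w d.toNat)
      - mean A w (V * X)) * (cf F E d : ℝ)|
      ≤ ε / (2 * (V : ℝ) ^ (e + 1)) * (((V * X : ℕ) : ℝ)) ^ (e + 1) := by
    refine le_trans (le_of_eq ?_) h3
    congr 1
    exact sum_congr rfl fun d hd => (h4 d hd).symm
  have hconv : ∀ f : ℤ → ℝ, ∑ n ∈ Ioc (0 : ℤ) X, f n = ∑ n ∈ Icc 1 X, f (n : ℤ) := by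
    intro f
    symm
    refine sum_nbij' (fun n => (n : ℤ)) (fun n => n.toNat) ?_ ?_ ?_ ?_ ?_
    · intro n hn; rw [mem_Icc] at hn; rw [mem_Ioc]; omega
    · intro n hn; rw [mem_Ioc] at hn; rw [mem_Icc]; omega
    · intro n _; simp
    · intro n hn; rw [mem_Ioc] at hn; exact Int.toNat_of_nonneg hn.1.le
    · intro n _; rfl
  rw [hconv] at h5
  simp only [Int.toNat_natCast] at h5
  have h6 : ∑ d ∈ Icc 1 X, (A (ArithmeticFunction.cardFactors d) (rough w d) - mean A w X) *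
        (cf F E d : ℝ) = ∑ d ∈ Icc 1 X, (A (ArithmeticFunction.cardFactors d) (rough w d)
          - mean A w (V * X)) * (cf F E d : ℝ)
        + (mean A w (V * X) - mean A w X) * ∑ d ∈ Icc 1 X, (cf F E d : ℝ) := by
    rw [mul_sum, ← sum_add_distrib]
    exact sum_congr rfl fun d _ => by ring
  rw [h6]
  refine (abs_add_le _ _).trans ?_
  have h7 : |∑ d ∈ Icc 1 X, ((cf F E (d : ℤ) : ℕ) : ℝ)| ≤ (X : ℝ) ^ (e + 1) := by
    rw [abs_of_nonneg (sum_nonneg fun _ _ => Nat.cast_nonneg _)]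
    have h8 : ∀ d ∈ Icc 1 X, ((cf F E (d : ℤ) : ℕ) : ℝ) ≤ (X : ℝ) ^ e := by
      intro d _
      have e1 := (cf_le F E (d : ℤ)).trans (card_le_card (hE 0))
      rw [card_cube] at e1
      have e2 : ((X : ℤ) - 0).toNat = X := by simp
      rw [e2] at e1
      exact_mod_cast e1
    refine (sum_le_sum h8).trans ?_
    rw [sum_const, Nat.card_Icc, Nat.add_sub_cancel, nsmul_eq_mul, pow_succ]
    linarith [mul_comm (X : ℝ) ((X : ℝ) ^ e)]
  have h8 := h2 X (by omega) w (by omega) A hA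
  have h9 : |(mean A w (V * X) - mean A w X) * ∑ d ∈ Icc 1 X, ((cf F E (d : ℤ) : ℕ) : ℝ)|
      ≤ ε / 2 * (X : ℝ) ^ (e + 1) := by
    rw [abs_mul]
    exact mul_le_mul h8 h7 (abs_nonneg _) (by positivity)
  have h10 : ε / (2 * (V : ℝ) ^ (e + 1)) * (((V * X : ℕ) : ℝ)) ^ (e + 1)
      = ε / 2 * (X : ℝ) ^ (e + 1) := by
    push_cast
    rw [mul_pow]
    field_simp
  rw [h10] at h5
  linarith

/-- **Szemerédi's theorem with restricted differences.** -/
theorem szem {e q : ℕ} (F : Fin (q + 1) → Fin e → ℤ) {α : ℝ} (hα : 0 < α) :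
    ∃ c : ℝ, 0 < c ∧ ∀ ε : ℝ, 0 < ε → ∃ w0 X0 : ℕ, ∀ X : ℕ, X0 ≤ X → ∀ w : ℕ, w0 ≤ w →
      ∀ A : ℕ → ℕ → ℝ, (∀ l m, 0 ≤ A l m ∧ A l m ≤ 1) → ∀ E : Finset (Fin e → ℤ),
      E ⊆ cube e 0 X → α * (X : ℝ) ^ e ≤ E.card →
      (c * mean A w X - ε) * (X : ℝ) ^ (e + 1) ≤
        ∑ d ∈ Icc 1 X, A (ArithmeticFunction.cardFactors d) (rough w d) *
          (cf F (fun _ => E) d : ℝ) := by
  classical
  obtain ⟨c1, hc1, N1, hS⟩ := many e q F hα
  refine ⟨c1, hc1, fun ε hε => ?_⟩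
  obtain ⟨w0, X0, hX0, h⟩ := diffs F hε
  refine ⟨w0, X0 + N1, fun X hX w hw A hA E hE hEc => ?_⟩
  have h1 := h X (by omega) w hw A (fun l m => by
    rw [abs_of_nonneg (hA l m).1]; exact (hA l m).2) (fun _ => E) (fun _ => hE)
  obtain ⟨S, hSp, hSc⟩ := hS X (by omega) E hE hEc
  have hX1 : (0 : ℝ) < X := by exact_mod_cast (by omega : 0 < X)
  have hmean : 0 ≤ mean A w X := by
    unfold mean
    exact div_nonneg (sum_nonneg fun n _ => (hA _ _).1) hX1.le
  have h2 : (S.card : ℝ) ≤ ∑ d ∈ Icc 1 X, (cf F (fun _ => E) d : ℝ) := by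
    have e1 : S.card = ∑ d ∈ Icc 1 X, (S.filter (fun p => p.2 = (d : ℤ))).card := by
      rw [← card_biUnion]
      · congr 1
        ext p
        rw [mem_biUnion]
        constructor
        · intro hp
          obtain ⟨a1, a2, a3⟩ := hSp p hp
          exact ⟨p.2.toNat, by rw [mem_Icc]; omega, mem_filter.2 ⟨hp, by omega⟩⟩
        · rintro ⟨d, _, hp⟩
          exact (mem_filter.1 hp).1
      · intro d _ d' _ hdd
        show Disjoint _ _
        rw [Finset.disjoint_left]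
        intro p hp hp'
        apply hdd
        have e2 := (mem_filter.1 hp).2
        have e3 := (mem_filter.1 hp').2
        exact_mod_cast e2.symm.trans e3
    have e2 : ∀ d ∈ Icc 1 X, (S.filter (fun p => p.2 = (d : ℤ))).card ≤ cf F (fun _ => E) d := by
      intro d _
      unfold cf
      rw [← Set.ncard_coe_finset]
      refine Set.ncard_le_ncard_of_injOn (fun p => p.1) ?_ ?_ (cf_fin F (fun _ => E) d)
      · intro p hp b
        rw [mem_coe, mem_filter] at hp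
        have := (hSp p hp.1).2.2 b
        rw [hp.2] at this
        exact this
      · intro p hp p' hp' hpp
        rw [mem_coe, mem_filter] at hp hp'
        exact Prod.ext hpp (hp.2.trans hp'.2.symm)
    have e3 : S.card ≤ ∑ d ∈ Icc 1 X, cf F (fun _ => E) d := by
      rw [e1]
      exact sum_le_sum e2
    exact_mod_cast e3
  have h3 : ∑ d ∈ Icc 1 X, A (ArithmeticFunction.cardFactors d) (rough w d) *
      (cf F (fun _ => E) d : ℝ) = ∑ d ∈ Icc 1 X, (A (ArithmeticFunction.cardFactors d) (rough w d)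
        - mean A w X) * (cf F (fun _ => E) d : ℝ)
      + mean A w X * ∑ d ∈ Icc 1 X, (cf F (fun _ => E) d : ℝ) := by
    rw [mul_sum, ← sum_add_distrib]
    exact sum_congr rfl fun d _ => by ring
  rw [h3]
  have h4 := (abs_le.1 h1).1
  have h5 : mean A w X * (c1 * (X : ℝ) ^ (e + 1))
      ≤ mean A w X * ∑ d ∈ Icc 1 X, (cf F (fun _ => E) d : ℝ) :=
    mul_le_mul_of_nonneg_left (hSc.trans h2) hmean
  nlinarith

end Pool.Agent.J4.H12.ST
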